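import Mathlib

/-!
# From first order inequalities to a norming functional
-/

namespace V1128.SNH

open Filter Topology Complex
open scoped ComplexConjugate InnerProductSpace

theorem exists_functional {V Y : Type*} [AddCommGroup V] [Module ℂ V] [NormedAddCommGroup Y]
    [NormedSpace ℂ Y] (Λ : V →ₗ[ℂ] Y) (F : V →ₗ[ℂ] ℂ) (h : ∀ v, ‖F v‖ ≤ ‖Λ v‖) :
    ∃ f : StrongDual ℂ Y, ‖f‖ ≤ 1 ∧ ∀ v, f (Λ v) = F v := by
  have hker : LinearMap.ker Λ ≤ LinearMap.ker F := by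
    intro v hv
    rw [LinearMap.mem_ker] at hv ⊢
    have := h v
    rw [hv, norm_zero] at this
    exact norm_le_zero_iff.1 this
  let f0 : LinearMap.range Λ →ₗ[ℂ] ℂ :=
    ((LinearMap.ker Λ).liftQ F hker) ∘ₗ (Λ.quotKerEquivRange.symm : LinearMap.range Λ →ₗ[ℂ] _)
  have hf0 : ∀ v, f0 ⟨Λ v, LinearMap.mem_range_self Λ v⟩ = F v := by
    intro v
    have : Λ.quotKerEquivRange.symm ⟨Λ v, LinearMap.mem_range_self Λ v⟩
        = (LinearMap.ker Λ).mkQ v := by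
      rw [LinearEquiv.symm_apply_eq]
      ext
      simp
    simp only [f0, LinearMap.comp_apply, LinearEquiv.coe_coe, this]
    simp
  have hb : ∀ y : LinearMap.range Λ, ‖f0 y‖ ≤ 1 * ‖y‖ := by
    rintro ⟨y, v, rfl⟩
    rw [hf0, one_mul]
    exact h v
  obtain ⟨f, hf, hfn⟩ := exists_extension_norm_eq (LinearMap.range Λ) (f0.mkContinuous 1 hb)
  refine ⟨f, ?_, fun v => ?_⟩
  · rw [hfn]; exact LinearMap.mkContinuous_norm_le _ zero_le_one _
  · have := hf ⟨Λ v, LinearMap.mem_range_self Λ v⟩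
    rw [LinearMap.mkContinuous_apply, hf0] at this
    exact this

variable {H : Type*} [NormedAddCommGroup H] [InnerProductSpace ℂ H] [CompleteSpace H]
variable {Y : Type*} [NormedAddCommGroup Y] [NormedSpace ℂ Y]

noncomputable local instance instHBQ : NormedAlgebra ℚ (H →L[ℂ] H) :=
  NormedAlgebra.restrictScalars ℚ ℂ (H →L[ℂ] H)

lemma key_ineq (J : H →L[ℂ] Y) (S : H →L[ℂ] H) (x : H) (ρ : ℝ)
    (h : ∀ᶠ τ : ℝ in 𝓝[>] 0, ‖J x‖ * (1 + τ * ρ) ≤ ‖J (NormedSpace.exp ((τ:ℂ) • S) x)‖) :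
    ‖J x‖ * (1 + ρ) ≤ ‖J (x + S x)‖ := by
  have hd := hasDerivAt_exp_smul_const (𝕂 := ℂ) S 0
  rw [hasDerivAt_iff_tendsto_slope_zero] at hd
  simp only [zero_smul, NormedSpace.exp_zero, one_mul, zero_add] at hd
  have hcomp : Tendsto (fun τ : ℝ => (τ:ℂ)) (𝓝[>] 0) (𝓝[≠] 0) := by
    refine tendsto_nhdsWithin_of_tendsto_nhds_of_eventually_within _ ?_ ?_
    · have : Tendsto (fun τ : ℝ => (τ:ℂ)) (𝓝 0) (𝓝 ((0:ℝ):ℂ)) := Complex.continuous_ofReal.tendsto 0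
      rw [Complex.ofReal_zero] at this
      exact this.mono_left nhdsWithin_le_nhds
    · filter_upwards [self_mem_nhdsWithin] with τ hτ
      have : (0:ℝ) < τ := hτ
      simp [this.ne']
  have h1 := hd.comp hcomp
  have h2 : Tendsto (fun τ : ℝ => ‖J (x + ((τ:ℂ)⁻¹ • (NormedSpace.exp ((τ:ℂ) • S) - 1)) x)‖)
      (𝓝[>] 0) (𝓝 ‖J (x + S x)‖) := by
    have h3 : Tendsto (fun τ : ℝ => ((τ:ℂ)⁻¹ • (NormedSpace.exp ((τ:ℂ) • S) - 1)) x)
        (𝓝[>] 0) (𝓝 (S x)) :=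
      ((ContinuousLinearMap.apply ℂ H x).continuous.tendsto S).comp h1
    exact ((J.continuous.tendsto _).comp (h3.const_add x)).norm
  refine ge_of_tendsto h2 ?_
  have h5 : ∀ᶠ τ : ℝ in 𝓝[>] 0, τ < 1 :=
    (tendsto_nhdsWithin_of_tendsto_nhds tendsto_id).eventually (gt_mem_nhds one_pos)
  filter_upwards [h, self_mem_nhdsWithin, h5] with τ hτ hτ0 hτ1
  have hτ0' : (0:ℝ) < τ := hτ0
  have hτc : (τ:ℂ) ≠ 0 := by exact_mod_cast hτ0'.ne'
  set r : H := ((τ:ℂ)⁻¹ • (NormedSpace.exp ((τ:ℂ) • S) - 1)) x with hr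
  have h6 : NormedSpace.exp ((τ:ℂ) • S) x = ((1 - τ : ℝ) : ℂ) • x + (τ:ℂ) • (x + r) := by
    have h7 : (τ:ℂ) • r = NormedSpace.exp ((τ:ℂ) • S) x - x := by
      rw [hr, smul_apply, smul_smul, mul_inv_cancel₀ hτc, one_smul, sub_apply]
      rfl
    rw [smul_add, h7]
    push_cast
    rw [sub_smul, one_smul]
    abel
  have h8 : ‖J (NormedSpace.exp ((τ:ℂ) • S) x)‖ ≤ (1 - τ) * ‖J x‖ + τ * ‖J (x + r)‖ := by
    rw [h6, map_add, map_smul, map_smul]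
    refine (norm_add_le _ _).trans ?_
    rw [norm_smul, norm_smul, Complex.norm_real, Complex.norm_real, Real.norm_eq_abs,
      Real.norm_eq_abs, abs_of_nonneg (by linarith), abs_of_pos hτ0']
  have h9 := hτ.trans h8
  have h10 : τ * (‖J x‖ * (1 + ρ)) ≤ τ * ‖J (x + r)‖ := by nlinarith
  exact le_of_mul_le_mul_left h10 hτ0'

lemma exp_phase (β : ℝ) (S : H →L[ℂ] H) (τ : ℝ) (x : H) :
    NormedSpace.exp ((τ:ℂ) • (((β:ℂ) * I) • (1 : H →L[ℂ] H) + S)) x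
      = Complex.exp (τ * β * I) • NormedSpace.exp ((τ:ℂ) • S) x := by
  rw [smul_add, NormedSpace.exp_add_of_commute]
  · have h1 : (τ:ℂ) • ((β:ℂ) * I) • (1 : H →L[ℂ] H) = algebraMap ℂ (H →L[ℂ] H) (τ * β * I) := by
      rw [smul_smul, Algebra.algebraMap_eq_smul_one, mul_assoc]
    rw [h1, ← NormedSpace.algebraMap_exp_comm, ← Complex.exp_eq_exp_ℂ,
      Algebra.algebraMap_eq_smul_one]
    rfl
  · rw [smul_smul]
    exact ((Commute.one_left _).smul_left _)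

theorem functional_of_ineq {V : Type*} [AddCommGroup V] [Module ℂ V] (J : H →L[ℂ] Y)
    (Wl : V →ₗ[ℂ] (H →L[ℂ] H)) (F : V →ₗ[ℂ] ℂ) (x : H)
    (h : ∀ v, ∀ᶠ τ : ℝ in 𝓝[>] 0,
      ‖J x‖ * (1 + τ * (F v).re) ≤ ‖J (NormedSpace.exp ((τ:ℂ) • Wl v) x)‖) :
    ∃ f : StrongDual ℂ Y, ‖f‖ ≤ 1 ∧ f (J x) = ‖J x‖ ∧ ∀ v, f (J (Wl v x)) = ‖J x‖ * F v := by
  -- step A
  have hA : ∀ (β : ℝ) (v : V),
      ‖J x‖ * (1 + (F v).re) ≤ ‖J (x + (((β:ℂ) * I) • x + Wl v x))‖ := by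
    intro β v
    have h1 := key_ineq J (((β:ℂ) * I) • (1 : H →L[ℂ] H) + Wl v) x (F v).re (by
      filter_upwards [h v] with τ hτ
      rw [exp_phase, map_smul, norm_smul]
      have : ‖Complex.exp (τ * β * I)‖ = 1 := by
        rw [show (τ:ℂ) * β * I = ((τ * β : ℝ) : ℂ) * I by push_cast; ring]
        exact Complex.norm_exp_ofReal_mul_I _
      rw [this, one_mul]
      exact hτ)
    exact h1
  -- step B
  have hB : ∀ (c : ℂ) (v : V), ‖J x‖ * (c + F v).re ≤ ‖J (c • x + Wl v x)‖ := by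
    intro c v
    set M : ℝ := |c.re| + 1 with hM
    set ρ : ℝ := M + c.re with hρ
    have hρ0 : 0 < ρ := by
      have := neg_abs_le c.re
      rw [hρ, hM]; linarith
    have hM0 : 0 < M := by positivity
    have h1 := hA (c.im / ρ) (((ρ⁻¹ : ℝ) : ℂ) • v)
    have h2 : (F (((ρ⁻¹ : ℝ) : ℂ) • v)).re = ρ⁻¹ * (F v).re := by
      rw [map_smul, smul_eq_mul, Complex.re_ofReal_mul]
    rw [h2] at h1
    have hρc : (ρ:ℂ) ≠ 0 := by exact_mod_cast hρ0.ne'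
    have h3 : (ρ:ℂ) • (x + ((((c.im / ρ : ℝ) : ℂ) * I) • x + Wl (((ρ⁻¹ : ℝ) : ℂ) • v) x))
        = (M:ℂ) • x + (c • x + Wl v x) := by
      have e1 : (ρ:ℂ) • ((((c.im / ρ : ℝ) : ℂ) * I) • x) = ((c.im : ℂ) * I) • x := by
        rw [smul_smul]
        congr 1
        push_cast
        field_simp
      have e2 : (ρ:ℂ) • (Wl (((ρ⁻¹ : ℝ) : ℂ) • v) x) = Wl v x := by
        rw [map_smul, smul_apply, smul_smul]
        push_cast
        rw [mul_inv_cancel₀ hρc, one_smul]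
      have e3 : (ρ:ℂ) • x + ((c.im : ℂ) * I) • x = (M:ℂ) • x + c • x := by
        rw [← add_smul, ← add_smul]
        congr 1
        rw [hρ]
        push_cast
        have := Complex.re_add_im c
        rw [add_assoc, this]
      rw [smul_add, smul_add, e1, e2, ← add_assoc, e3, add_assoc]
    have h4 : ‖J ((M:ℂ) • x + (c • x + Wl v x))‖ ≤ M * ‖J x‖ + ‖J (c • x + Wl v x)‖ := by
      rw [map_add, map_smul]
      refine (norm_add_le _ _).trans ?_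
      rw [norm_smul, Complex.norm_real, Real.norm_eq_abs, abs_of_pos hM0]
    rw [← h3, map_smul, norm_smul, Complex.norm_real, Real.norm_eq_abs, abs_of_pos hρ0] at h4
    have h5 : ρ * (‖J x‖ * (1 + ρ⁻¹ * (F v).re))
        ≤ ρ * ‖J (x + ((((c.im / ρ : ℝ) : ℂ) * I) • x + Wl (((ρ⁻¹ : ℝ) : ℂ) • v) x))‖ := by
      gcongr
    have h6 : ρ * (‖J x‖ * (1 + ρ⁻¹ * (F v).re)) = ‖J x‖ * (ρ + (F v).re) := by
      field_simp
    rw [h6] at h5
    rw [Complex.add_re]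
    have h7 := h5.trans h4
    rw [hρ] at h7
    linarith
  -- step C
  have hC : ∀ (c : ℂ) (v : V), ‖(‖J x‖ : ℂ) * (c + F v)‖ ≤ ‖J (c • x + Wl v x)‖ := by
    intro c v
    rw [norm_mul, Complex.norm_real, norm_norm]
    by_cases hz : c + F v = 0
    · rw [hz]; simp
    · set z : ℂ := c + F v with hzdef
      have hzn : 0 < ‖z‖ := norm_pos_iff.2 hz
      set e : ℂ := conj z / ‖z‖ with he
      have hen : ‖e‖ = 1 := by
        rw [he, norm_div, RCLike.norm_conj, Complex.norm_real, norm_norm, div_self hzn.ne']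
      have h1 := hB (e * c) (e • v)
      have h2 : e * c + F (e • v) = ‖z‖ := by
        rw [map_smul, smul_eq_mul, ← mul_add, ← hzdef, he, div_mul_eq_mul_div, Complex.conj_mul']
        rw [sq, mul_div_assoc, div_self (by exact_mod_cast hzn.ne'), mul_one]
      have h3 : (e * c) • x + Wl (e • v) x = e • (c • x + Wl v x) := by
        rw [map_smul, smul_add, smul_smul]; rfl
      rw [h2, h3, Complex.ofReal_re, map_smul, norm_smul, hen, one_mul] at h1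
      exact h1
  -- conclusion
  let Λ : (ℂ × V) →ₗ[ℂ] Y :=
    (J : H →ₗ[ℂ] Y) ∘ₗ ((LinearMap.toSpanSingleton ℂ H x).coprod
      ((ContinuousLinearMap.apply ℂ H x : (H →L[ℂ] H) →ₗ[ℂ] H) ∘ₗ Wl))
  let F' : (ℂ × V) →ₗ[ℂ] ℂ := (‖J x‖ : ℂ) • ((LinearMap.id : ℂ →ₗ[ℂ] ℂ).coprod F)
  have hΛ : ∀ (c : ℂ) (v : V), Λ (c, v) = J (c • x + Wl v x) := fun c v => rfl
  have hF' : ∀ (c : ℂ) (v : V), F' (c, v) = (‖J x‖ : ℂ) * (c + F v) := fun c v => rfl
  obtain ⟨f, hf1, hf⟩ := exists_functional Λ F' (by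
    rintro ⟨c, v⟩
    rw [hΛ, hF']
    exact hC c v)
  refine ⟨f, hf1, ?_, fun v => ?_⟩
  · have := hf (1, 0)
    rw [hΛ, hF'] at this
    simpa using this
  · have := hf (0, v)
    rw [hΛ, hF'] at this
    simpa using this

end V1128.SNH
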