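import Mathlib

/-!
# Wiener's lemma for atomless measures

If `w : X → ℂ` is continuous, of modulus one, and all its level sets are null, then the Cesàro
means of `‖∫ w ^ n dμ‖ ^ 2` tend to zero.
-/

namespace V1128.SNH

open MeasureTheory Filter Topology Complex
open scoped ComplexConjugate

/-- Cesàro mean of powers of a complex number. -/
noncomputable def ces (z : ℂ) (N : ℕ) : ℂ := (N : ℂ)⁻¹ * ∑ n ∈ Finset.range N, z ^ n

lemma norm_ces_le {z : ℂ} (hz : ‖z‖ ≤ 1) (N : ℕ) : ‖ces z N‖ ≤ 1 := by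
  unfold ces
  rw [norm_mul, norm_inv, Complex.norm_natCast]
  have h : ‖∑ n ∈ Finset.range N, z ^ n‖ ≤ N := by
    refine (norm_sum_le _ _).trans ?_
    calc ∑ n ∈ Finset.range N, ‖z ^ n‖ ≤ ∑ n ∈ Finset.range N, (1:ℝ) := by
          refine Finset.sum_le_sum fun n _ => ?_
          rw [norm_pow]; exact pow_le_one₀ (norm_nonneg _) hz
      _ = N := by simp
  rcases Nat.eq_zero_or_pos N with h0 | h0
  · subst h0; simp
  · have : (0:ℝ) < N := by exact_mod_cast h0
    calc (N:ℝ)⁻¹ * ‖∑ n ∈ Finset.range N, z ^ n‖ ≤ (N:ℝ)⁻¹ * N := by gcongr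
      _ = 1 := inv_mul_cancel₀ this.ne'

lemma tendsto_ces {z : ℂ} (hz : ‖z‖ ≤ 1) (h1 : z ≠ 1) : Tendsto (ces z) atTop (𝓝 0) := by
  have hz1 : z - 1 ≠ 0 := sub_ne_zero.2 h1
  have hbound : ∀ N : ℕ, ‖ces z N‖ ≤ (2 / ‖z - 1‖) * (N:ℝ)⁻¹ := by
    intro N
    unfold ces
    rw [norm_mul, norm_inv, Complex.norm_natCast, geom_sum_eq h1, norm_div, mul_comm]
    gcongr
    calc ‖z ^ N - 1‖ ≤ ‖z ^ N‖ + ‖(1:ℂ)‖ := norm_sub_le _ _
      _ ≤ 1 + 1 := by
          gcongr
          · rw [norm_pow]; exact pow_le_one₀ (norm_nonneg _) hz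
          · simp
      _ = 2 := by norm_num
  refine squeeze_zero_norm hbound ?_
  have := (tendsto_inv_atTop_nhds_zero_nat (𝕜 := ℝ)).const_mul (2 / ‖z - 1‖)
  simpa using this

theorem wiener {X : Type*} [TopologicalSpace X] [CompactSpace X] [MeasurableSpace X]
    [BorelSpace X] (μ : Measure X) [IsFiniteMeasure μ] (w : X → ℂ) (hw : Continuous w)
    (h1 : ∀ x, ‖w x‖ = 1) (h0 : ∀ c : ℂ, μ {x | w x = c} = 0) :
    Tendsto (fun N : ℕ => (N:ℝ)⁻¹ * ∑ n ∈ Finset.range N, ‖∫ x, w x ^ n ∂μ‖ ^ 2) atTop (𝓝 0) := by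
  have hwm : Measurable w := hw.measurable
  have hpm : Measurable (fun p : X × X => w p.1 * conj (w p.2)) := by fun_prop
  -- the double integral
  have key : ∀ N : ℕ, (((N:ℝ)⁻¹ * ∑ n ∈ Finset.range N, ‖∫ x, w x ^ n ∂μ‖ ^ 2 : ℝ) : ℂ)
      = ∫ p : X × X, ces (w p.1 * conj (w p.2)) N ∂(μ.prod μ) := by
    intro N
    have hint : ∀ n : ℕ, Integrable (fun x => w x ^ n) μ := by
      intro n
      refine Integrable.of_bound (C := 1) (by fun_prop) (ae_of_all _ fun x => ?_)
      rw [norm_pow, h1]; simp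
    have hn : ∀ n : ℕ, (‖∫ x, w x ^ n ∂μ‖ ^ 2 : ℂ)
        = ∫ p : X × X, (w p.1 * conj (w p.2)) ^ n ∂(μ.prod μ) := by
      intro n
      have : ∀ p : X × X, (w p.1 * conj (w p.2)) ^ n = (w p.1) ^ n * conj ((w p.2) ^ n) := by
        intro p; rw [mul_pow, map_pow]
      simp_rw [this]
      rw [integral_prod_mul (μ := μ) (ν := μ) (fun x => w x ^ n) (fun y => conj (w y ^ n)),
        integral_conj, Complex.mul_conj, Complex.normSq_eq_norm_sq]
      push_cast
      rfl
    unfold ces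
    rw [integral_const_mul, integral_finsetSum]
    · push_cast
      congr 1
      exact Finset.sum_congr rfl fun n _ => hn n
    · intro n _
      refine Integrable.of_bound (C := 1) (hpm.pow_const n).aestronglyMeasurable
        (ae_of_all _ fun p => ?_)
      rw [norm_pow, norm_mul, h1, RCLike.norm_conj, h1]; simp
  have hnorm : ∀ p : X × X, ‖w p.1 * conj (w p.2)‖ ≤ 1 := by
    intro p; rw [norm_mul, RCLike.norm_conj, h1, h1]; simp
  have hae : ∀ᵐ p ∂(μ.prod μ), w p.1 * conj (w p.2) ≠ 1 := by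
    have hm : MeasurableSet {p : X × X | w p.1 * conj (w p.2) ≠ 1} := by
      exact (hpm (measurableSet_singleton 1)).compl
    rw [Measure.ae_prod_iff_ae_ae hm]
    refine ae_of_all _ fun x => ?_
    rw [ae_iff]
    simp only [not_not]
    have : {y | w x * conj (w y) = 1} = {y | w y = w x} := by
      ext y
      simp only [Set.mem_ofPred_eq]
      have hy : conj (w y) * w y = 1 := by
        rw [Complex.conj_mul', h1]; simp
      constructor
      · intro h
        have := congrArg (· * w y) h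
        simp only [mul_assoc, hy, mul_one, one_mul] at this
        exact this.symm
      · intro h
        rw [← h, mul_comm]; exact hy
    rw [this]; exact h0 _
  have hlim : Tendsto (fun N : ℕ => ∫ p : X × X, ces (w p.1 * conj (w p.2)) N ∂(μ.prod μ)) atTop
      (𝓝 (∫ _p : X × X, (0:ℂ) ∂(μ.prod μ))) := by
    refine tendsto_integral_of_dominated_convergence (fun _ => (1:ℝ)) ?_ ?_ ?_ ?_
    · intro N
      unfold ces
      exact ((Finset.measurable_fun_sum _ fun n _ => hpm.pow_const n).const_mul _).aestronglyMeasurable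
    · exact integrable_const _
    · intro N
      exact ae_of_all _ fun p => norm_ces_le (hnorm p) N
    · filter_upwards [hae] with p hp
      exact tendsto_ces (hnorm p) hp
  rw [integral_zero] at hlim
  have h2 : Tendsto (fun N : ℕ => (((N:ℝ)⁻¹ * ∑ n ∈ Finset.range N, ‖∫ x, w x ^ n ∂μ‖ ^ 2 : ℝ) : ℂ))
      atTop (𝓝 0) := by
    simp_rw [key]; exact hlim
  have h3 := h2.norm
  simp only [norm_zero] at h3
  refine h3.congr fun N => ?_
  rw [Complex.norm_real, Real.norm_eq_abs, abs_of_nonneg]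
  positivity

end V1128.SNH
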