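import Mathlib
import Pool.Agent.V1128.SNH.Wiener

/-!
# Spectral measures of a unitary operator, and weak mixing without eigenvalues
-/

namespace V1128.SNH

open MeasureTheory Filter Topology Complex
open scoped ComplexConjugate InnerProductSpace CompactlySupported

variable {H : Type*} [NormedAddCommGroup H] [InnerProductSpace ℂ H] [CompleteSpace H]

section measure
variable (T : H →L[ℂ] H) (hT : IsStarNormal T) (v : H)

/-- Real functions as complex functions. -/
noncomputable def toC {X : Type*} [TopologicalSpace X] (f : C(X, ℝ)) : C(X, ℂ) :=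
  ⟨fun x => (f x : ℂ), Complex.continuous_ofReal.comp f.continuous⟩

/-- The linear functional `f ↦ re ⟪v, f(T) v⟫` on real continuous functions on the spectrum. -/
noncomputable def lam : C_c(spectrum ℂ T, ℝ) →ₗ[ℝ] ℝ where
  toFun f := (⟪v, cfcHom hT (toC f) v⟫_ℂ).re
  map_add' f g := by
    have : toC ((f + g : C_c(spectrum ℂ T, ℝ)) : C(spectrum ℂ T, ℝ)) = toC f + toC g := by
      ext x; simp [toC]
    rw [this, map_add, add_apply, inner_add_right, Complex.add_re]
  map_smul' c f := by
    have : toC ((c • f : C_c(spectrum ℂ T, ℝ)) : C(spectrum ℂ T, ℝ)) = (c:ℂ) • toC f := by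
      ext x; simp [toC]
    rw [this, map_smul, smul_apply, inner_smul_right]
    simp

lemma lam_apply (f : C_c(spectrum ℂ T, ℝ)) : lam T hT v f = (⟪v, cfcHom hT (toC f) v⟫_ℂ).re := rfl

lemma inner_self_conj (g : C(spectrum ℂ T, ℂ)) :
    ⟪v, cfcHom hT (star g * g) v⟫_ℂ = (‖cfcHom hT g v‖ : ℂ) ^ 2 := by
  rw [map_mul, map_star, ContinuousLinearMap.star_eq_adjoint]
  change ⟪v, ContinuousLinearMap.adjoint (cfcHom hT g) (cfcHom hT g v)⟫_ℂ = _
  rw [ContinuousLinearMap.adjoint_inner_right, inner_self_eq_norm_sq_to_K]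
  rfl

lemma lam_nonneg (f : C_c(spectrum ℂ T, ℝ)) (hf : 0 ≤ f) : 0 ≤ lam T hT v f := by
  let g : C(spectrum ℂ T, ℂ) := toC ⟨fun x => Real.sqrt (f x), Real.continuous_sqrt.comp f.continuous⟩
  have hg : toC (f : C(spectrum ℂ T, ℝ)) = star g * g := by
    ext x
    have : 0 ≤ f x := hf x
    simp only [toC, ContinuousMap.coe_mk, ContinuousMap.mul_apply, ContinuousMap.star_apply, g]
    rw [Complex.star_def, Complex.conj_ofReal, ← Complex.ofReal_mul, Real.mul_self_sqrt this]
  rw [lam_apply, hg, inner_self_conj]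
  rw [← Complex.ofReal_pow, Complex.ofReal_re]
  positivity

/-- The positive functional. -/
noncomputable def lamP : C_c(spectrum ℂ T, ℝ) →ₚ[ℝ] ℝ :=
  PositiveLinearMap.mk₀ (lam T hT v) (lam_nonneg T hT v)

/-- The spectral measure. -/
noncomputable def sm : Measure (spectrum ℂ T) := RealRMK.rieszMeasure (lamP T hT v)

instance : IsFiniteMeasure (sm T hT v) := by
  have : IsFiniteMeasureOnCompacts (sm T hT v) := by
    unfold sm RealRMK.rieszMeasure
    infer_instance
  infer_instance

lemma integral_real (f : C(spectrum ℂ T, ℝ)) :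
    ∫ x, f x ∂(sm T hT v) = (⟪v, cfcHom hT (toC f) v⟫_ℂ).re := by
  have := RealRMK.integral_rieszMeasure (lamP T hT v)
    (CompactlySupportedContinuousMap.continuousMapEquiv f)
  exact this

lemma inner_toC_im (f : C(spectrum ℂ T, ℝ)) : (⟪v, cfcHom hT (toC f) v⟫_ℂ).im = 0 := by
  have h1 : star (toC f) = toC f := by
    ext x; simp [toC]
  have h2 : star (cfcHom hT (toC f)) = cfcHom hT (toC f) := by rw [← map_star, h1]
  rw [ContinuousLinearMap.star_eq_adjoint] at h2
  have h3 : ⟪v, cfcHom hT (toC f) v⟫_ℂ = conj ⟪v, cfcHom hT (toC f) v⟫_ℂ := by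
    conv_lhs => rw [← h2, ContinuousLinearMap.adjoint_inner_right]
    rw [inner_conj_symm]
  have := congrArg Complex.im h3
  rw [Complex.conj_im] at this
  linarith

lemma integral_complex (f : C(spectrum ℂ T, ℂ)) :
    ∫ x, f x ∂(sm T hT v) = ⟪v, cfcHom hT f v⟫_ℂ := by
  let a : C(spectrum ℂ T, ℝ) := ⟨fun x => (f x).re, Complex.continuous_re.comp f.continuous⟩
  let b : C(spectrum ℂ T, ℝ) := ⟨fun x => (f x).im, Complex.continuous_im.comp f.continuous⟩
  have hf : f = toC a + Complex.I • toC b := by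
    ext x
    simp only [toC, a, b, ContinuousMap.add_apply, ContinuousMap.coe_mk, ContinuousMap.smul_apply,
      smul_eq_mul]
    rw [mul_comm]; exact (Complex.re_add_im (f x)).symm
  have hint : Integrable (fun x => f x) (sm T hT v) := by
    refine Integrable.of_bound (C := ‖f‖) f.continuous.measurable.aestronglyMeasurable
      (ae_of_all _ fun x => f.norm_coe_le_norm x)
  have h1 := integral_re_add_im (𝕜 := ℂ) hint
  rw [← h1]
  have h2 : ∫ x, (f x).re ∂(sm T hT v) = (⟪v, cfcHom hT (toC a) v⟫_ℂ).re := integral_real T hT v a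
  have h3 : ∫ x, (f x).im ∂(sm T hT v) = (⟪v, cfcHom hT (toC b) v⟫_ℂ).re := integral_real T hT v b
  simp only [RCLike.re_eq_complex_re, RCLike.im_eq_complex_im, RCLike.I_to_complex] at *
  rw [h2, h3]
  conv_rhs => rw [hf, map_add, map_smul, add_apply,
    smul_apply, inner_add_right, inner_smul_right]
  have e1 : ((⟪v, cfcHom hT (toC a) v⟫_ℂ).re : ℂ) = ⟪v, cfcHom hT (toC a) v⟫_ℂ := by
    apply Complex.ext <;> simp [inner_toC_im]
  have e2 : ((⟪v, cfcHom hT (toC b) v⟫_ℂ).re : ℂ) = ⟪v, cfcHom hT (toC b) v⟫_ℂ := by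
    apply Complex.ext <;> simp [inner_toC_im]
  rw [mul_comm Complex.I]
  exact congrArg₂ (fun x y : ℂ => x + y * Complex.I) e1 e2

lemma norm_sq_eq (f : C(spectrum ℂ T, ℂ)) :
    ‖cfcHom hT f v‖ ^ 2 = ∫ x, ‖f x‖ ^ 2 ∂(sm T hT v) := by
  have h := integral_complex T hT v (star f * f)
  rw [inner_self_conj] at h
  have h2 : ∀ x, (star f * f) x = ((‖f x‖ ^ 2 : ℝ) : ℂ) := by
    intro x
    simp only [ContinuousMap.mul_apply, ContinuousMap.star_apply, Complex.star_def]
    rw [Complex.conj_mul']; push_cast; rfl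
  simp_rw [h2] at h
  rw [integral_complex_ofReal] at h
  exact_mod_cast h.symm

variable {T}

/-- A unitary operator has spectrum in the unit circle. -/
lemma norm_spec (hU : T ∈ unitary (H →L[ℂ] H)) (x : spectrum ℂ T) : ‖(x:ℂ)‖ = 1 := by
  have := spectrum.subset_circle_of_unitary hU x.2
  simpa using this

/-- `t ^ n` as a continuous function. -/
noncomputable def tp (T : H →L[ℂ] H) (n : ℕ) : C(spectrum ℂ T, ℂ) :=
  ⟨fun x => (x:ℂ) ^ n, by fun_prop⟩

lemma cfcHom_tp (n : ℕ) : cfcHom hT (tp T n) = T ^ n := by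
  have h1 : tp T n = (ContinuousMap.restrict (spectrum ℂ T) (.id ℂ)) ^ n := by
    ext x; simp [tp]
  rw [h1, map_pow, cfcHom_id]

lemma integral_pow (n : ℕ) : ∫ x, (x:ℂ) ^ n ∂(sm T hT v) = ⟪v, (T ^ n) v⟫_ℂ := by
  rw [← cfcHom_tp hT n, ← integral_complex]
  rfl

omit [CompleteSpace H] in
lemma pow_apply_iter (S : H →L[ℂ] H) (n : ℕ) (v : H) : (S ^ n) v = S^[n] v := by
  induction n generalizing v with
  | zero => rfl
  | succ n ih => rw [pow_succ, Function.iterate_succ_apply, ← ih]; rfl

/-- No eigenvalue: the spectral measures have no atoms. -/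
lemma atomless (hU : T ∈ unitary (H →L[ℂ] H)) (hne : ∀ (c : ℂ) (x : H), T x = c • x → x = 0)
    (c : ℂ) : sm T hT v {x | (x:ℂ) = c} = 0 := by
  by_cases hc : ‖c‖ = 1
  swap
  · convert measure_empty (μ := sm T hT v)
    ext x
    simp only [Set.mem_ofPred_eq, Set.mem_empty_iff_false, iff_false]
    rintro rfl
    exact hc (norm_spec hU x)
  · -- the averages of `conj c * T`
    set S : H →L[ℂ] H := conj c • T with hS
    have hT1 : ‖T‖ ≤ 1 := by
      refine ContinuousLinearMap.opNorm_le_bound _ zero_le_one fun x => ?_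
      have h2 : ‖T x‖ ^ 2 = ‖x‖ ^ 2 := by
        have h3 : (ContinuousLinearMap.adjoint T) (T x) = x := by
          have := (Unitary.mem_iff.1 hU).1
          rw [ContinuousLinearMap.star_eq_adjoint] at this
          exact congrArg (fun A : H →L[ℂ] H => A x) this
        have h4 : ⟪T x, T x⟫_ℂ = ⟪x, x⟫_ℂ := by
          rw [← ContinuousLinearMap.adjoint_inner_left, h3]
        rw [inner_self_eq_norm_sq_to_K, inner_self_eq_norm_sq_to_K] at h4
        exact_mod_cast h4
      rw [one_mul]
      exact le_of_eq ((sq_eq_sq₀ (norm_nonneg _) (norm_nonneg _)).1 h2)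
    have hS1 : ‖S‖ ≤ 1 := by
      rw [hS, norm_smul, RCLike.norm_conj, hc, one_mul]; exact hT1
    have hlim := ContinuousLinearMap.tendsto_birkhoffAverage_orthogonalProjection S hS1 v
    have hbot : ∀ x ∈ (S.eqLocus (1 : H →L[ℂ] H)), x = 0 := by
      intro x hx
      have hx' : S x = x := hx
      refine hne c x ?_
      have h5 : c • S x = T x := by
        rw [hS, smul_apply, smul_smul, Complex.mul_conj', hc]; simp
      rw [← h5, hx']
    rw [hbot _ (Submodule.coe_mem _)] at hlim
    have hzero : Tendsto (fun N : ℕ => ‖birkhoffAverage ℂ S _root_.id N v‖ ^ 2) atTop (𝓝 0) := by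
      have h6 := (hlim.norm).pow 2
      simpa using h6
    -- compare with the measure
    have hle : ∀ N : ℕ, 0 < N → (sm T hT v).real {x | (x:ℂ) = c}
        ≤ ‖birkhoffAverage ℂ S _root_.id N v‖ ^ 2 := by
      intro N hN
      let f : C(spectrum ℂ T, ℂ) := (N:ℂ)⁻¹ • ∑ n ∈ Finset.range N, (conj c) ^ n • tp T n
      have hf : cfcHom hT f v = birkhoffAverage ℂ S _root_.id N v := by
        simp only [f, map_smul, map_sum, cfcHom_tp, birkhoffAverage, birkhoffSum, id]
        rw [smul_apply, sum_apply]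
        congr 1
        refine Finset.sum_congr rfl fun n _ => ?_
        rw [← pow_apply_iter, hS, smul_pow]
      rw [← hf, norm_sq_eq, ← integral_indicator_one]
      · refine integral_mono_ae ?_ ?_ ?_
        · refine (integrable_const (1:ℝ)).indicator ?_
          exact measurableSet_eq_fun (by fun_prop) measurable_const
        · refine Integrable.of_bound (C := ‖f‖ ^ 2) ?_ (ae_of_all _ fun x => ?_)
          · exact (f.continuous.norm.pow 2).measurable.aestronglyMeasurable
          · rw [norm_pow, norm_norm]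
            gcongr
            exact f.norm_coe_le_norm x
        · refine ae_of_all _ fun x => ?_
          by_cases hx : (x:ℂ) = c
          · have h7 : f x = 1 := by
              have h8 : ∀ n : ℕ, (conj c) ^ n * c ^ n = 1 := by
                intro n; rw [← mul_pow, Complex.conj_mul', hc]; simp
              simp only [f, tp, ContinuousMap.smul_apply, ContinuousMap.coe_sum, Finset.sum_apply,
                ContinuousMap.coe_smul, Pi.smul_apply, ContinuousMap.coe_mk, smul_eq_mul, hx, h8]
              simp [hN.ne']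
            simp [Set.indicator, hx, h7]
          · have : x ∉ {x : spectrum ℂ T | (x:ℂ) = c} := hx
            simp only [Set.indicator, this, if_false]
            positivity
      · exact measurableSet_eq_fun (by fun_prop) measurable_const
    have h9 : (sm T hT v).real {x | (x:ℂ) = c} ≤ 0 := by
      refine ge_of_tendsto hzero ?_
      filter_upwards [eventually_gt_atTop 0] with N hN
      exact hle N hN
    have h10 : (sm T hT v).real {x | (x:ℂ) = c} = 0 := le_antisymm h9 measureReal_nonneg
    rwa [measureReal_eq_zero_iff] at h10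

/-- Cesàro means of `‖⟪v, T ^ (m n) v⟫‖ ^ 2` tend to zero. -/
theorem ces_diag (hU : T ∈ unitary (H →L[ℂ] H))
    (hne : ∀ (c : ℂ) (x : H), T x = c • x → x = 0) (m : ℕ) (hm : 0 < m) :
    Tendsto (fun N : ℕ => (N:ℝ)⁻¹ * ∑ n ∈ Finset.range N, ‖⟪v, (T ^ (m * n)) v⟫_ℂ‖ ^ 2) atTop
      (𝓝 0) := by
  have hT : IsStarNormal T := by
    have h := Unitary.mem_iff.1 hU
    exact ⟨by rw [commute_iff_eq, h.1, h.2]⟩
  have h := wiener (sm T hT v) (fun x => (x:ℂ) ^ m) (by fun_prop)
    (fun x => by rw [norm_pow, norm_spec hU]; simp) (fun c => ?_)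
  · refine h.congr fun N => ?_
    congr 1
    refine Finset.sum_congr rfl fun n _ => ?_
    congr 2
    rw [← integral_pow hT v (m * n)]
    congr 1
    ext x
    rw [pow_mul]
  · have hfin : Set.Finite {z : ℂ | z ^ m = c} := by
      have hp : (Polynomial.X ^ m - Polynomial.C c : Polynomial ℂ) ≠ 0 :=
        Polynomial.X_pow_sub_C_ne_zero hm c
      refine (Polynomial.finite_setOfPred_isRoot hp).subset fun z hz => ?_
      have hz' : z ^ m = c := hz
      simp [Polynomial.IsRoot, hz']
    have hsub : {x : spectrum ℂ T | (x:ℂ) ^ m = c}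
        ⊆ ⋃ z ∈ {z : ℂ | z ^ m = c}, {x : spectrum ℂ T | (x:ℂ) = z} := by
      intro x hx
      simp only [Set.mem_iUnion]
      exact ⟨(x:ℂ), hx, rfl⟩
    refine measure_mono_null hsub ?_
    rw [measure_biUnion_null_iff hfin.countable]
    intro z _
    exact atomless hT v hU hne z

end measure

end V1128.SNH
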