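import Mathlib
import Pool.Agent.V1128.SNH.Spec

/-!
# Uniform weak mixing on compact sets for unitary operators without eigenvalues
-/

namespace V1128.SNH

open Filter Topology Complex
open scoped ComplexConjugate InnerProductSpace

variable {H : Type*} [NormedAddCommGroup H] [InnerProductSpace ℂ H] [CompleteSpace H]
variable {T : H →L[ℂ] H}

lemma norm_unitary_apply (hU : T ∈ unitary (H →L[ℂ] H)) (x : H) : ‖T x‖ = ‖x‖ := by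
  have h2 : ‖T x‖ ^ 2 = ‖x‖ ^ 2 := by
    have h3 : (ContinuousLinearMap.adjoint T) (T x) = x := by
      have := (Unitary.mem_iff.1 hU).1
      rw [ContinuousLinearMap.star_eq_adjoint] at this
      exact congrArg (fun A : H →L[ℂ] H => A x) this
    have h4 : ⟪T x, T x⟫_ℂ = ⟪x, x⟫_ℂ := by
      rw [← ContinuousLinearMap.adjoint_inner_left, h3]
    rw [inner_self_eq_norm_sq_to_K, inner_self_eq_norm_sq_to_K] at h4
    exact_mod_cast h4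
  exact (sq_eq_sq₀ (norm_nonneg _) (norm_nonneg _)).1 h2

lemma norm_pow_apply (hU : T ∈ unitary (H →L[ℂ] H)) (n : ℕ) (x : H) : ‖(T ^ n) x‖ = ‖x‖ :=
  norm_unitary_apply (pow_mem hU n) x

/-- Cesàro means of `‖⟪b, T ^ (m n) a⟫‖ ^ 2` tend to zero. -/
theorem ces_pair (hU : T ∈ unitary (H →L[ℂ] H))
    (hne : ∀ (c : ℂ) (x : H), T x = c • x → x = 0) (m : ℕ) (hm : 0 < m) (a b : H) :
    Tendsto (fun N : ℕ => (N:ℝ)⁻¹ * ∑ n ∈ Finset.range N, ‖⟪b, (T ^ (m * n)) a⟫_ℂ‖ ^ 2) atTop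
      (𝓝 0) := by
  have h1 := ces_diag (b + a) hU hne m hm
  have h2 := ces_diag (b - a) hU hne m hm
  have h3 := ces_diag (b + I • a) hU hne m hm
  have h4 := ces_diag (b - I • a) hU hne m hm
  have hs := (((h1.add h2).add h3).add h4)
  simp only [add_zero] at hs
  refine squeeze_zero (fun N => by positivity) (fun N => ?_) hs
  rw [← mul_add, ← mul_add, ← mul_add, ← Finset.sum_add_distrib, ← Finset.sum_add_distrib,
    ← Finset.sum_add_distrib]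
  refine mul_le_mul_of_nonneg_left (Finset.sum_le_sum fun n _ => ?_) (by positivity)
  set S : H →L[ℂ] H := T ^ (m * n)
  have hp := inner_map_polarization (S : H →ₗ[ℂ] H) b a
  simp only [ContinuousLinearMap.coe_coe] at hp
  rw [norm_inner_symm b, hp, norm_inner_symm (b + a), norm_inner_symm (b - a),
    norm_inner_symm (b + I • a), norm_inner_symm (b - I • a)]
  set p := ⟪S (b + a), b + a⟫_ℂ
  set q := ⟪S (b - a), b - a⟫_ℂ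
  set r := ⟪S (b + I • a), b + I • a⟫_ℂ
  set s := ⟪S (b - I • a), b - I • a⟫_ℂ
  have h5 : ‖(p - q + I * r - I * s) / 4‖ ≤ (‖p‖ + ‖q‖ + ‖r‖ + ‖s‖) / 4 := by
    rw [norm_div]
    have : ‖(4:ℂ)‖ = 4 := by simp
    rw [this]
    gcongr
    calc ‖p - q + I * r - I * s‖ ≤ ‖p - q + I * r‖ + ‖I * s‖ := norm_sub_le _ _
      _ ≤ ‖p - q‖ + ‖I * r‖ + ‖I * s‖ := by gcongr; exact norm_add_le _ _
      _ ≤ ‖p‖ + ‖q‖ + ‖I * r‖ + ‖I * s‖ := by gcongr; exact norm_sub_le _ _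
      _ = _ := by simp
  have h6 : ‖(p - q + I * r - I * s) / 4‖ ^ 2 ≤ ((‖p‖ + ‖q‖ + ‖r‖ + ‖s‖) / 4) ^ 2 := by gcongr
  nlinarith [sq_nonneg (‖p‖ - ‖q‖), sq_nonneg (‖p‖ - ‖r‖), sq_nonneg (‖p‖ - ‖s‖),
    sq_nonneg (‖q‖ - ‖r‖), sq_nonneg (‖q‖ - ‖s‖), sq_nonneg (‖r‖ - ‖s‖), sq_nonneg ‖p‖,
    sq_nonneg ‖q‖, sq_nonneg ‖r‖, sq_nonneg ‖s‖]

/-- If Cesàro means of a nonnegative sequence tend to zero, the sequence is small infinitely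
often. -/
lemma exists_small {s : ℕ → ℝ}
    (h : Tendsto (fun N : ℕ => (N:ℝ)⁻¹ * ∑ n ∈ Finset.range N, s n) atTop (𝓝 0))
    (hs : ∀ n, 0 ≤ s n) {δ : ℝ} (hδ : 0 < δ) (N0 : ℕ) : ∃ n ≥ N0, s n ≤ δ := by
  by_contra hcon
  push Not at hcon
  have h1 : ∀ᶠ N : ℕ in atTop, (N:ℝ)⁻¹ * ∑ n ∈ Finset.range N, s n < δ / 2 :=
    h.eventually (gt_mem_nhds (by positivity))
  obtain ⟨N, hN, hN2⟩ := (h1.and (eventually_ge_atTop (2 * N0 + 1))).exists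
  have hNpos : (0:ℝ) < N := by exact_mod_cast (by omega : 0 < N)
  have h2 : ((N - N0 : ℕ) : ℝ) * δ ≤ ∑ n ∈ Finset.range N, s n := by
    have h3 : Finset.Ico N0 N ⊆ Finset.range N := by
      intro x hx; simp at hx ⊢; exact hx.2
    calc ((N - N0 : ℕ) : ℝ) * δ = ∑ n ∈ Finset.Ico N0 N, δ := by
          rw [Finset.sum_const, Nat.card_Ico, nsmul_eq_mul]
      _ ≤ ∑ n ∈ Finset.Ico N0 N, s n :=
          Finset.sum_le_sum fun n hn => (hcon n (Finset.mem_Ico.1 hn).1).le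
      _ ≤ _ := Finset.sum_le_sum_of_subset_of_nonneg h3 fun n _ _ => hs n
  have h4 : (N:ℝ) ≤ 2 * ((N - N0 : ℕ) : ℝ) := by
    have : N ≤ 2 * (N - N0) := by omega
    exact_mod_cast this
  rw [inv_mul_lt_iff₀ hNpos] at hN
  nlinarith

/-- Uniform weak mixing on a compact set. -/
theorem mix (hU : T ∈ unitary (H →L[ℂ] H))
    (hne : ∀ (c : ℂ) (x : H), T x = c • x → x = 0) {A : Set H} (hA : IsCompact A) (M : ℕ)
    {δ : ℝ} (hδ : 0 < δ) (N0 : ℕ) :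
    ∃ n ≥ N0, ∀ a ∈ A, ∀ b ∈ A, ∀ m, 1 ≤ m → m ≤ M → ‖⟪b, (T ^ (m * n)) a⟫_ℂ‖ ≤ δ := by
  obtain ⟨C, hC⟩ := hA.isBounded.exists_norm_le
  set C' : ℝ := |C| + 1 with hC'
  have hC'pos : 0 < C' := by positivity
  have hCa : ∀ a ∈ A, ‖a‖ ≤ C' := fun a ha =>
    (hC a ha).trans ((le_abs_self C).trans (by rw [hC']; linarith))
  set η : ℝ := δ / (4 * C') with hη
  have hηpos : 0 < η := by positivity
  obtain ⟨t, htA, hcov⟩ := hA.finite_cover_balls hηpos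
  obtain ⟨htfin, hcov⟩ := hcov
  set F : Finset H := htfin.toFinset with hF
  have hlim : Tendsto (fun N : ℕ => (N:ℝ)⁻¹ * ∑ n ∈ Finset.range N,
      ∑ q ∈ (F ×ˢ F) ×ˢ (Finset.Icc 1 M), ‖⟪q.1.2, (T ^ (q.2 * n)) q.1.1⟫_ℂ‖ ^ 2) atTop (𝓝 0) := by
    have h1 : ∀ N : ℕ, (N:ℝ)⁻¹ * ∑ n ∈ Finset.range N,
        ∑ q ∈ (F ×ˢ F) ×ˢ (Finset.Icc 1 M), ‖⟪q.1.2, (T ^ (q.2 * n)) q.1.1⟫_ℂ‖ ^ 2
        = ∑ q ∈ (F ×ˢ F) ×ˢ (Finset.Icc 1 M),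
          (N:ℝ)⁻¹ * ∑ n ∈ Finset.range N, ‖⟪q.1.2, (T ^ (q.2 * n)) q.1.1⟫_ℂ‖ ^ 2 := by
      intro N
      rw [Finset.sum_comm, Finset.mul_sum]
    simp_rw [h1]
    have h2 := tendsto_finsetSum (f := fun (q : (H × H) × ℕ) (N : ℕ) =>
      (N:ℝ)⁻¹ * ∑ n ∈ Finset.range N, ‖⟪q.1.2, (T ^ (q.2 * n)) q.1.1⟫_ℂ‖ ^ 2)
      (x := atTop) (a := fun _ => (0:ℝ)) ((F ×ˢ F) ×ˢ (Finset.Icc 1 M)) (fun q hq => by
        have hq2 := (Finset.mem_product.1 hq).2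
        exact ces_pair hU hne q.2 (Finset.mem_Icc.1 hq2).1 q.1.1 q.1.2)
    simpa using h2
  obtain ⟨n, hn, hs⟩ := exists_small hlim (fun n => by positivity)
    (δ := (δ / 2) ^ 2) (by positivity) N0
  refine ⟨n, hn, fun a ha b hb m hm1 hmM => ?_⟩
  obtain ⟨a', ha't, ha'⟩ : ∃ a' ∈ t, ‖a - a'‖ < η := by
    have := hcov ha
    simp only [Set.mem_iUnion, Metric.mem_ball, dist_eq_norm] at this
    obtain ⟨x, hx, h⟩ := this; exact ⟨x, hx, h⟩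
  obtain ⟨b', hb't, hb'⟩ : ∃ b' ∈ t, ‖b - b'‖ < η := by
    have := hcov hb
    simp only [Set.mem_iUnion, Metric.mem_ball, dist_eq_norm] at this
    obtain ⟨x, hx, h⟩ := this; exact ⟨x, hx, h⟩
  have h1 : ‖⟪b', (T ^ (m * n)) a'⟫_ℂ‖ ^ 2 ≤ (δ / 2) ^ 2 := by
    refine le_trans ?_ hs
    refine Finset.single_le_sum (f := fun q : (H × H) × ℕ => ‖⟪q.1.2, (T ^ (q.2 * n)) q.1.1⟫_ℂ‖ ^ 2)
      (fun q _ => by positivity) (a := ((a', b'), m)) ?_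
    simp [hF, ha't, hb't, hm1, hmM]
  have h2 : ‖⟪b', (T ^ (m * n)) a'⟫_ℂ‖ ≤ δ / 2 :=
    (sq_le_sq₀ (norm_nonneg _) (by positivity)).1 h1
  have h3 : ⟪b, (T ^ (m * n)) a⟫_ℂ = ⟪b', (T ^ (m * n)) a'⟫_ℂ + ⟪b - b', (T ^ (m * n)) a⟫_ℂ
      + ⟪b', (T ^ (m * n)) (a - a')⟫_ℂ := by
    rw [map_sub, inner_sub_right, inner_sub_left]; ring
  have h4 : ‖⟪b - b', (T ^ (m * n)) a⟫_ℂ‖ ≤ δ / 4 := by
    calc ‖⟪b - b', (T ^ (m * n)) a⟫_ℂ‖ ≤ ‖b - b'‖ * ‖(T ^ (m * n)) a‖ := norm_inner_le_norm _ _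
      _ = ‖b - b'‖ * ‖a‖ := by rw [norm_pow_apply hU]
      _ ≤ η * C' := by gcongr; exact hCa a ha
      _ = δ / 4 := by rw [hη]; field_simp
  have h5 : ‖⟪b', (T ^ (m * n)) (a - a')⟫_ℂ‖ ≤ δ / 4 := by
    calc ‖⟪b', (T ^ (m * n)) (a - a')⟫_ℂ‖ ≤ ‖b'‖ * ‖(T ^ (m * n)) (a - a')‖ := norm_inner_le_norm _ _
      _ = ‖b'‖ * ‖a - a'‖ := by rw [norm_pow_apply hU]
      _ ≤ C' * η := by gcongr; exact hCa b' (htA hb't)
      _ = δ / 4 := by rw [hη]; field_simp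
  rw [h3]
  calc _ ≤ ‖⟪b', (T ^ (m * n)) a'⟫_ℂ‖ + ‖⟪b - b', (T ^ (m * n)) a⟫_ℂ‖
        + ‖⟪b', (T ^ (m * n)) (a - a')⟫_ℂ‖ := norm_add₃_le
    _ ≤ δ / 2 + δ / 4 + δ / 4 := by gcongr
    _ = δ := by ring

end V1128.SNH
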