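import Mathlib
import Pool.Agent.V1128.SNH.Mix

/-!
# Exponentials of high powers of a unitary operator without eigenvalues
-/

namespace V1128.SNH

open Filter Topology Complex
open scoped ComplexConjugate InnerProductSpace

lemma hasSum_real_exp (R : ℝ) : HasSum (fun m : ℕ => R ^ m / m.factorial) (Real.exp R) := by
  rw [Real.exp_eq_exp_ℝ]; exact NormedSpace.expSeries_div_hasSum_exp R

lemma series_est {R : ℝ} {h : ℕ → ℂ} {K δ : ℝ} {M m0 : ℕ} (hK0 : 0 ≤ K) (hδ0 : 0 ≤ δ)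
    (hK : ∀ m, ‖h m‖ ≤ K) (hδ : ∀ m, m ≤ M → m ≠ m0 → ‖h m‖ ≤ δ) {s : ℂ} (hs : ‖s‖ ≤ R) {S : ℂ}
    (hS : HasSum (fun m : ℕ => (m.factorial:ℂ)⁻¹ * s ^ m * h m) S) :
    ‖S - (m0.factorial:ℂ)⁻¹ * s ^ m0 * h m0‖
      ≤ δ * Real.exp R + K * (Real.exp R - ∑ m ∈ Finset.range (M + 1), R ^ m / m.factorial) := by
  have hR : 0 ≤ R := (norm_nonneg s).trans hs
  have h1 := hS.sub (hasSum_ite_eq m0 ((m0.factorial:ℂ)⁻¹ * s ^ m0 * h m0))
  have hu := hasSum_real_exp R
  have hfin : HasSum (fun m : ℕ => if m ∈ Finset.range (M + 1) then R ^ m / m.factorial else 0)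
      (∑ m ∈ Finset.range (M + 1), R ^ m / m.factorial) := by
    have : HasSum (fun m : ℕ => if m ∈ Finset.range (M + 1) then R ^ m / (m.factorial:ℝ) else 0)
        (∑ m ∈ Finset.range (M + 1),
          if m ∈ Finset.range (M + 1) then R ^ m / (m.factorial:ℝ) else 0) :=
      hasSum_sum_of_ne_finset_zero (fun b hb => by simp only [hb, if_false])
    rwa [Finset.sum_congr rfl (fun m hm => if_pos hm)] at this
  have hg := (hu.mul_left δ).add ((hu.sub hfin).mul_left K)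
  refine h1.norm_le_of_bounded hg fun m => ?_
  have hpos : 0 ≤ R ^ m / (m.factorial:ℝ) := by positivity
  have hcoef : ∀ L : ℝ, ‖h m‖ ≤ L → ‖(m.factorial:ℂ)⁻¹ * s ^ m * h m‖ ≤ R ^ m / m.factorial * L := by
    intro L hL
    rw [norm_mul, norm_mul, norm_inv, norm_pow, Complex.norm_natCast]
    rw [div_eq_inv_mul]
    gcongr
  by_cases hm0 : m = m0
  · simp only [hm0, if_true, sub_self, norm_zero]
    by_cases hmM : m0 ∈ Finset.range (M + 1)
    · simp only [hmM, if_true, sub_self, mul_zero, add_zero]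
      positivity
    · simp only [hmM, if_false, sub_zero]
      positivity
  · simp only [hm0, if_false, sub_zero]
    by_cases hmM : m ∈ Finset.range (M + 1)
    · simp only [hmM, if_true, sub_self, mul_zero, add_zero]
      refine (hcoef δ (hδ m (by simpa [Nat.lt_succ_iff] using hmM) hm0)).trans ?_
      rw [mul_comm]
    · simp only [hmM, if_false, sub_zero]
      refine (hcoef K (hK m)).trans ?_
      rw [mul_comm]
      have : 0 ≤ δ * (R ^ m / (m.factorial:ℝ)) := by positivity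
      linarith

lemma exists_tail (R K : ℝ) {ε : ℝ} (hε : 0 < ε) :
    ∃ M : ℕ, K * (Real.exp R - ∑ m ∈ Finset.range (M + 1), R ^ m / m.factorial) ≤ ε := by
  have h1 := (hasSum_real_exp R).tendsto_sum_nat
  have h2 : Tendsto (fun M : ℕ => K * (Real.exp R - ∑ m ∈ Finset.range (M + 1), R ^ m / m.factorial))
      atTop (𝓝 (K * (Real.exp R - Real.exp R))) :=
    ((h1.comp (tendsto_add_atTop_nat 1)).const_sub _).const_mul K
  rw [sub_self, mul_zero] at h2
  obtain ⟨M, hM⟩ := (h2.eventually (gt_mem_nhds hε)).exists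
  exact ⟨M, hM.le⟩

variable {H : Type*} [NormedAddCommGroup H] [InnerProductSpace ℂ H] [CompleteSpace H]
variable {T : H →L[ℂ] H}

lemma hasSum_inner (s : ℂ) (n : ℕ) (a b : H) :
    HasSum (fun m : ℕ => (m.factorial:ℂ)⁻¹ * s ^ m * ⟪b, (T ^ (m * n)) a⟫_ℂ)
      ⟪b, NormedSpace.exp (s • T ^ n) a⟫_ℂ := by
  have h := NormedSpace.exp_series_hasSum_exp' (𝕂 := ℂ) (s • T ^ n)
  have h2 := ((innerSL ℂ b).comp (ContinuousLinearMap.apply ℂ H a)).hasSum h
  have he : (fun m : ℕ => (m.factorial:ℂ)⁻¹ * s ^ m * ⟪b, (T ^ (m * n)) a⟫_ℂ)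
      = fun m : ℕ => ((innerSL ℂ b).comp (ContinuousLinearMap.apply ℂ H a))
        (((m.factorial:ℂ)⁻¹) • (s • T ^ n) ^ m) := by
    funext m
    change _ = ⟪b, ((((m.factorial:ℂ)⁻¹) • (s • T ^ n) ^ m : H →L[ℂ] H)) a⟫_ℂ
    rw [smul_apply, smul_pow, smul_apply, inner_smul_right, inner_smul_right,
      ← pow_mul, mul_comm n m, mul_assoc]
  rw [he]
  exact h2

/-- Exponentials `exp (s T^n)` act almost trivially on a compact set, for suitable large `n`. -/
theorem exp_mix (hU : T ∈ unitary (H →L[ℂ] H))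
    (hne : ∀ (c : ℂ) (x : H), T x = c • x → x = 0) {A : Set H} (hA : IsCompact A) {g : H}
    (hg : g ∈ A) (R : ℝ) {ε : ℝ} (hε : 0 < ε) (N0 : ℕ) :
    ∃ n ≥ N0, ∀ s : ℂ, ‖s‖ ≤ R → ∀ a ∈ A,
      (∀ b ∈ A, ‖⟪b, NormedSpace.exp (s • T ^ n) a⟫_ℂ - ⟪b, a⟫_ℂ‖ ≤ ε) ∧
      ‖⟪(T ^ n) g, NormedSpace.exp (s • T ^ n) a⟫_ℂ - s * ⟪g, a⟫_ℂ‖ ≤ ε := by
  obtain ⟨C, hC⟩ := hA.isBounded.exists_norm_le
  set C' : ℝ := |C| + 1 with hC'
  have hCa : ∀ a ∈ A, ‖a‖ ≤ C' := fun a ha =>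
    (hC a ha).trans ((le_abs_self C).trans (by rw [hC']; linarith))
  obtain ⟨M, hM⟩ := exists_tail R (C' * C') (half_pos hε)
  have hδ : 0 < ε / (2 * Real.exp R) := by positivity
  obtain ⟨n, hn, hmix⟩ := mix hU hne hA (M + 1) hδ N0
  have hδR : ε / (2 * Real.exp R) * Real.exp R = ε / 2 := by
    have := Real.exp_pos R
    field_simp
  refine ⟨n, hn, fun s hs a ha => ⟨fun b hb => ?_, ?_⟩⟩
  · have h := series_est (K := C' * C') (δ := ε / (2 * Real.exp R)) (M := M) (m0 := 0)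
      (by positivity) hδ.le
      (h := fun m => ⟪b, (T ^ (m * n)) a⟫_ℂ) (fun m => ?_) (fun m hm hm0 => ?_) hs
      (hasSum_inner s n a b)
    · simp only [Nat.factorial_zero, Nat.cast_one, inv_one, pow_zero, one_mul, zero_mul] at h
      change ‖_ - ⟪b, a⟫_ℂ‖ ≤ _ at h
      linarith
    · calc ‖⟪b, (T ^ (m * n)) a⟫_ℂ‖ ≤ ‖b‖ * ‖(T ^ (m * n)) a‖ := norm_inner_le_norm _ _
        _ = ‖b‖ * ‖a‖ := by rw [norm_pow_apply hU]
        _ ≤ C' * C' := by gcongr <;> [exact hCa b hb; exact hCa a ha]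
    · exact hmix a ha b hb m (Nat.one_le_iff_ne_zero.2 hm0) (by omega)
  · have h := series_est (K := C' * C') (δ := ε / (2 * Real.exp R)) (M := M) (m0 := 1)
      (by positivity) hδ.le
      (h := fun m => ⟪(T ^ n) g, (T ^ (m * n)) a⟫_ℂ) (fun m => ?_) (fun m hm hm0 => ?_) hs
      (hasSum_inner s n a ((T ^ n) g))
    · simp only [Nat.factorial_one, Nat.cast_one, inv_one, pow_one, one_mul] at h
      have h5 : ⟪(T ^ n) g, (T ^ n) a⟫_ℂ = ⟪g, a⟫_ℂ := by
        have h6 := (Unitary.mem_iff.1 (pow_mem hU n)).1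
        rw [ContinuousLinearMap.star_eq_adjoint] at h6
        rw [← ContinuousLinearMap.adjoint_inner_left]
        congr 1
        exact congrArg (fun A : H →L[ℂ] H => A g) h6
      rw [h5] at h
      linarith
    · calc ‖⟪(T ^ n) g, (T ^ (m * n)) a⟫_ℂ‖ ≤ ‖(T ^ n) g‖ * ‖(T ^ (m * n)) a‖ :=
            norm_inner_le_norm _ _
        _ = ‖g‖ * ‖a‖ := by rw [norm_pow_apply hU, norm_pow_apply hU]
        _ ≤ C' * C' := by gcongr <;> [exact hCa g hg; exact hCa a ha]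
    · rcases Nat.lt_or_ge m 1 with h0 | h0
      · have : m = 0 := by omega
        subst this
        simp only [zero_mul, pow_zero]
        change ‖⟪(T ^ n) g, a⟫_ℂ‖ ≤ _
        rw [norm_inner_symm]
        simpa using hmix g hg a ha 1 le_rfl (by omega)
      · obtain ⟨k, rfl⟩ : ∃ k, m = k + 1 := ⟨m - 1, by omega⟩
        have h7 : ⟪(T ^ n) g, (T ^ ((k + 1) * n)) a⟫_ℂ = ⟪g, (T ^ (k * n)) a⟫_ℂ := by
          have h6 := (Unitary.mem_iff.1 (pow_mem hU n)).1
          rw [ContinuousLinearMap.star_eq_adjoint] at h6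
          rw [add_mul, one_mul, add_comm, pow_add]
          change ⟪(T ^ n) g, (T ^ n) ((T ^ (k * n)) a)⟫_ℂ = _
          rw [← ContinuousLinearMap.adjoint_inner_left]
          congr 1
          exact congrArg (fun A : H →L[ℂ] H => A g) h6
        rw [h7]
        exact hmix a ha g hg k (by omega) (by omega)

end V1128.SNH
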