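import Mathlib
import Pool.Agent.V1128.SNH.Exp

/-!
# A sparse sequence of exponents along which the powers are nearly independent
-/

namespace V1128.SNH

open Filter Topology Complex
open scoped ComplexConjugate InnerProductSpace

section rec

variable (F : (ℕ → ℕ) → ℕ → ℕ)

/-- Recursion on prefixes. -/
noncomputable def recSeq (k : ℕ) : ℕ :=
  Nat.strongRecOn k (fun k ih => F (fun j => if h : j < k then ih j h else 0) k)

lemma recSeq_eq (k : ℕ) : recSeq F k = F (fun j => if j < k then recSeq F j else 0) k := by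
  unfold recSeq
  rw [Nat.strongRecOn_eq]
  congr 1

lemma exists_recSeq (Q : (ℕ → ℕ) → ℕ → ℕ → Prop)
    (hdep : ∀ (n n' : ℕ → ℕ) (k m : ℕ), (∀ j < k, n j = n' j) → Q n k m → Q n' k m)
    (hex : ∀ (n : ℕ → ℕ) (k : ℕ), ∃ m, Q n k m) : ∃ n : ℕ → ℕ, ∀ k, Q n k (n k) := by
  choose F hF using hex
  refine ⟨recSeq F, fun k => ?_⟩
  have h1 := hF (fun j => if j < k then recSeq F j else 0) k
  rw [← recSeq_eq F k] at h1
  exact hdep _ _ k _ (fun j hj => by simp [hj]) h1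

end rec

variable {H : Type*} [NormedAddCommGroup H] [InnerProductSpace ℂ H] [CompleteSpace H]

noncomputable local instance instSeqQ : NormedAlgebra ℚ (H →L[ℂ] H) :=
  NormedAlgebra.restrictScalars ℚ ℂ (H →L[ℂ] H)

/-- The exponent `∑_{j<k} s_j T^{n_j}`. -/
noncomputable def W (T : H →L[ℂ] H) (n : ℕ → ℕ) (k : ℕ) (s : ℕ → ℂ) : H →L[ℂ] H :=
  ∑ j ∈ Finset.range k, s j • T ^ n j

/-- `exp (∑_{j<k} s_j T^{n_j}) g`. -/
noncomputable def P (T : H →L[ℂ] H) (g : H) (n : ℕ → ℕ) (k : ℕ) (s : ℕ → ℂ) : H :=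
  NormedSpace.exp (W T n k s) g

variable (T : H →L[ℂ] H) (g : H) (n : ℕ → ℕ)

omit [CompleteSpace H] in
lemma commute_W (k : ℕ) (s : ℕ → ℂ) (c : ℂ) (m : ℕ) : Commute (c • T ^ m) (W T n k s) := by
  unfold W
  refine Commute.sum_right _ _ _ fun j _ => ?_
  exact (((Commute.refl T).pow_pow m (n j)).smul_left c).smul_right (s j)

omit [CompleteSpace H] in
lemma commute_WW (k k' : ℕ) (s s' : ℕ → ℂ) : Commute (W T n k s) (W T n k' s') := by
  conv_lhs => unfold W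
  exact Commute.sum_left _ _ _ fun j _ => commute_W T n k' s' (s j) (n j)

lemma P_zero (s : ℕ → ℂ) : P T g n 0 s = g := by
  simp [P, W, NormedSpace.exp_zero]

lemma P_succ (k : ℕ) (s : ℕ → ℂ) :
    P T g n (k + 1) s = NormedSpace.exp (s k • T ^ n k) (P T g n k s) := by
  unfold P
  have h : W T n (k + 1) s = s k • T ^ n k + W T n k s := by
    unfold W; rw [Finset.sum_range_succ, add_comm]
  rw [h, NormedSpace.exp_add_of_commute (commute_W T n k s (s k) (n k))]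
  rfl

lemma P_add (k : ℕ) (s v : ℕ → ℂ) :
    P T g n k (s + v) = NormedSpace.exp (W T n k v) (P T g n k s) := by
  unfold P
  have h : W T n k (s + v) = W T n k v + W T n k s := by
    unfold W; rw [← Finset.sum_add_distrib]
    exact Finset.sum_congr rfl fun j _ => by rw [Pi.add_apply, add_smul, add_comm]
  rw [h, NormedSpace.exp_add_of_commute (commute_WW T n k k v s)]
  rfl

omit [CompleteSpace H] in
lemma W_congr {n n' : ℕ → ℕ} {k : ℕ} {s s' : ℕ → ℂ} (h : ∀ j < k, n j = n' j)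
    (h' : ∀ j < k, s j = s' j) : W T n k s = W T n' k s' := by
  unfold W
  refine Finset.sum_congr rfl fun j hj => ?_
  rw [h j (Finset.mem_range.1 hj), h' j (Finset.mem_range.1 hj)]

/-- Truncation of a sequence. -/
def trunc (k : ℕ) (s : ℕ → ℂ) : ℕ → ℂ := fun j => if j < k then s j else 0

lemma P_trunc {k k' : ℕ} (hk : k ≤ k') (s : ℕ → ℂ) :
    P T g n k' (trunc k s) = P T g n k s := by
  have : W T n k' (trunc k s) = W T n k s := by
    unfold W
    rw [← Finset.sum_subset (Finset.range_subset_range.2 hk)]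
    · exact Finset.sum_congr rfl fun j hj => by simp [trunc, Finset.mem_range.1 hj]
    · intro j _ hj
      simp [trunc, Finset.mem_range.not.1 hj]
  unfold P; rw [this]

lemma continuous_W (k : ℕ) : Continuous (W T n k) := by
  unfold W
  exact continuous_finsetSum _ fun j _ => (continuous_apply j).smul continuous_const

lemma continuous_P (k : ℕ) : Continuous (P T g n k) := by
  unfold P
  exact (NormedSpace.exp_continuous.comp (continuous_W T n k)).clm_apply continuous_const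

/-- The polydisc. -/
def D (R : ℝ) : Set (ℕ → ℂ) := {s | ∀ j, ‖s j‖ ≤ R}

lemma isCompact_D (R : ℝ) : IsCompact (D R) := by
  have : D R = Set.pi Set.univ (fun _ : ℕ => Metric.closedBall (0:ℂ) R) := by
    ext s; simp [D]
  rw [this]
  exact isCompact_univ_pi fun _ => isCompact_closedBall 0 R

lemma trunc_mem {R : ℝ} (hR : 0 ≤ R) {s : ℕ → ℂ} (hs : s ∈ D R) (k : ℕ) : trunc k s ∈ D R := by
  intro j
  unfold trunc
  split_ifs
  · exact hs j
  · simpa using hR

/-- Test vectors at level `k`. -/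
def B (R : ℝ) (k : ℕ) : Set H :=
  (P T g n k '' D R ∪ (fun i => (T ^ n i) g) '' {i | i < k}) ∪ {g}

lemma isCompact_B (R : ℝ) (k : ℕ) : IsCompact (B T g n R k) := by
  unfold B
  refine (((isCompact_D R).image (continuous_P T g n k)).union ?_).union isCompact_singleton
  exact ((Set.finite_lt_nat k).image _).isCompact

lemma B_congr {n n' : ℕ → ℕ} {k : ℕ} (h : ∀ j < k, n j = n' j) (R : ℝ) :
    B T g n R k = B T g n' R k := by
  unfold B
  have h1 : P T g n k = P T g n' k := by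
    funext s; unfold P; rw [W_congr T h (fun _ _ => rfl)]
  rw [h1]
  congr 2
  refine Set.image_congr fun i hi => ?_
  rw [h i hi]

lemma B_mono {R : ℝ} (hR : 0 ≤ R) {k k' : ℕ} (hk : k ≤ k') : B T g n R k ⊆ B T g n R k' := by
  rintro x ((⟨s, hs, rfl⟩ | ⟨i, hi, rfl⟩) | rfl)
  · exact Or.inl (Or.inl ⟨trunc k s, trunc_mem hR hs k, P_trunc T g n hk s⟩)
  · exact Or.inl (Or.inr ⟨i, lt_of_lt_of_le hi hk, rfl⟩)
  · exact Or.inr rfl

variable {T g}

theorem exists_seq (hU : T ∈ unitary (H →L[ℂ] H))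
    (hne : ∀ (c : ℂ) (x : H), T x = c • x → x = 0) (R : ℝ) (ε : ℕ → ℝ)
    (hε : ∀ k, 0 < ε k) (N : ℕ → ℕ) :
    ∃ n : ℕ → ℕ, (∀ k, N k ≤ n k) ∧
      (∀ k, ∀ s ∈ D R, ∀ b ∈ B T g n R k,
        ‖⟪b, P T g n (k + 1) s⟫_ℂ - ⟪b, P T g n k s⟫_ℂ‖ ≤ ε k) ∧
      (∀ k, ∀ s ∈ D R,
        ‖⟪(T ^ n k) g, P T g n (k + 1) s⟫_ℂ - s k * ⟪g, P T g n k s⟫_ℂ‖ ≤ ε k) := by
  obtain ⟨n, hn⟩ := exists_recSeq
    (fun n k m => N k ≤ m ∧ ∀ s : ℂ, ‖s‖ ≤ R → ∀ a ∈ B T g n R k,
      (∀ b ∈ B T g n R k, ‖⟪b, NormedSpace.exp (s • T ^ m) a⟫_ℂ - ⟪b, a⟫_ℂ‖ ≤ ε k) ∧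
      ‖⟪(T ^ m) g, NormedSpace.exp (s • T ^ m) a⟫_ℂ - s * ⟪g, a⟫_ℂ‖ ≤ ε k)
    (fun n n' k m h hq => by rw [← B_congr T g h R]; exact hq)
    (fun n k => exp_mix hU hne (isCompact_B T g n R k) (Or.inr rfl) R (hε k) (N k))
  refine ⟨n, fun k => (hn k).1, fun k s hs b hb => ?_, fun k s hs => ?_⟩
  · rw [P_succ]
    exact ((hn k).2 (s k) (hs k) _ (Or.inl (Or.inl ⟨s, hs, rfl⟩))).1 b hb
  · rw [P_succ]
    exact ((hn k).2 (s k) (hs k) _ (Or.inl (Or.inl ⟨s, hs, rfl⟩))).2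

end V1128.SNH
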