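import Mathlib
import Pool.Agent.V1128.SNH.Seq

/-!
# The limit vectors
-/

namespace V1128.SNH

open Filter Topology Complex
open scoped ComplexConjugate InnerProductSpace

variable {H : Type*} [NormedAddCommGroup H] [InnerProductSpace ℂ H] [CompleteSpace H]

/-- The data: a sequence of exponents for which the powers are nearly independent. -/
structure Good (T : H →L[ℂ] H) (g : H) (n : ℕ → ℕ) (R : ℝ) : Prop where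
  hR : 0 ≤ R
  hg : ‖g‖ = 1
  E1 : ∀ k, ∀ s ∈ D R, ∀ b ∈ B T g n R k,
        ‖⟪b, P T g n (k + 1) s⟫_ℂ - ⟪b, P T g n k s⟫_ℂ‖ ≤ (1 / 2 : ℝ) ^ (k + 3)
  E3 : ∀ k, ∀ s ∈ D R,
        ‖⟪(T ^ n k) g, P T g n (k + 1) s⟫_ℂ - s k * ⟪g, P T g n k s⟫_ℂ‖ ≤ (1 / 2 : ℝ) ^ (k + 3)

variable {T : H →L[ℂ] H} {g : H} {n : ℕ → ℕ} {R : ℝ} (G : Good T g n R)

include G

lemma Good.L1 {k : ℕ} {s : ℕ → ℂ} (hs : s ∈ D R) {b : H} (hb : b ∈ B T g n R k) {k' : ℕ}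
    (hk : k ≤ k') :
    ‖⟪b, P T g n k' s⟫_ℂ - ⟪b, P T g n k s⟫_ℂ‖ ≤ (1 / 2 : ℝ) ^ (k + 2) - (1 / 2 : ℝ) ^ (k' + 2) := by
  induction k', hk using Nat.le_induction with
  | base => simp
  | succ m hm ih =>
    have h1 := G.E1 m s hs b (B_mono T g n G.hR hm hb)
    have h2 : ⟪b, P T g n (m + 1) s⟫_ℂ - ⟪b, P T g n k s⟫_ℂ
        = (⟪b, P T g n (m + 1) s⟫_ℂ - ⟪b, P T g n m s⟫_ℂ)
          + (⟪b, P T g n m s⟫_ℂ - ⟪b, P T g n k s⟫_ℂ) := by ring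
    rw [h2]
    refine (norm_add_le _ _).trans ((add_le_add h1 ih).trans (le_of_eq ?_))
    have e1 : (1 / 2 : ℝ) ^ (m + 3) = (1 / 2) ^ (m + 2) * (1 / 2) := by rw [← pow_succ]
    rw [e1]; ring

omit G in
lemma mem_B_P {s : ℕ → ℂ} (hs : s ∈ D R) (k : ℕ) : P T g n k s ∈ B T g n R k :=
  Or.inl (Or.inl ⟨s, hs, rfl⟩)

lemma Good.diff_sq {s : ℕ → ℂ} (hs : s ∈ D R) {k k' : ℕ} (hk : k ≤ k') :
    ‖P T g n k' s - P T g n k s‖ ^ 2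
      ≤ ‖P T g n k' s‖ ^ 2 - ‖P T g n k s‖ ^ 2
        + 2 * ((1 / 2 : ℝ) ^ (k + 2) - (1 / 2 : ℝ) ^ (k' + 2)) := by
  have h1 := G.L1 hs (mem_B_P hs k) hk
  have h2 := @norm_sub_sq ℂ H _ _ _ (P T g n k' s) (P T g n k s)
  have h3 : RCLike.re ⟪P T g n k' s, P T g n k s⟫_ℂ
      = RCLike.re ⟪P T g n k s, P T g n k' s⟫_ℂ := inner_re_symm _ _
  have h4 : RCLike.re (⟪P T g n k s, P T g n k' s⟫_ℂ - ⟪P T g n k s, P T g n k s⟫_ℂ)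
      ≥ -((1 / 2 : ℝ) ^ (k + 2) - (1 / 2 : ℝ) ^ (k' + 2)) := by
    have := RCLike.abs_re_le_norm (⟪P T g n k s, P T g n k' s⟫_ℂ - ⟪P T g n k s, P T g n k s⟫_ℂ)
    have h5 := abs_le.1 (this.trans h1)
    exact h5.1
  rw [map_sub, inner_self_eq_norm_sq] at h4
  rw [h2, h3]
  linarith

/-- The set of admissible parameters. -/
def KB (T : H →L[ℂ] H) (g : H) (n : ℕ → ℕ) (R C : ℝ) : Set (ℕ → ℂ) :=
  {s | s ∈ D R ∧ ∀ k, ‖P T g n k s‖ ≤ C}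

omit G in
lemma isCompact_KB (T : H →L[ℂ] H) (g : H) (n : ℕ → ℕ) (R C : ℝ) :
    IsCompact (KB T g n R C) := by
  have : KB T g n R C = D R ∩ ⋂ k, {s | ‖P T g n k s‖ ≤ C} := by
    ext s; simp [KB]
  rw [this]
  refine (isCompact_D R).inter_right (isClosed_iInter fun k => ?_)
  exact isClosed_le (continuous_P T g n k).norm continuous_const

/-- The limit vector. -/
noncomputable def X (T : H →L[ℂ] H) (g : H) (n : ℕ → ℕ) (s : ℕ → ℂ) : H :=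
  limUnder atTop (fun k => P T g n k s)

lemma Good.tendsto_X {C : ℝ} {s : ℕ → ℂ} (hs : s ∈ KB T g n R C) :
    Tendsto (fun k => P T g n k s) atTop (𝓝 (X T g n s)) := by
  apply CauchySeq.tendsto_limUnder
  set a : ℕ → ℝ := fun k => ‖P T g n k s‖ ^ 2 with ha
  have hmono : Monotone (fun k => a k - 2 * (1 / 2 : ℝ) ^ (k + 2)) := by
    refine monotone_nat_of_le_succ fun k => ?_
    have h1 := G.diff_sq hs.1 (show k ≤ k + 1 from Nat.le_succ k)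
    have h2 : 0 ≤ ‖P T g n (k + 1) s - P T g n k s‖ ^ 2 := by positivity
    simp only [ha]
    linarith
  have hbdd : BddAbove (Set.range (fun k => a k - 2 * (1 / 2 : ℝ) ^ (k + 2))) := by
    refine ⟨C ^ 2, ?_⟩
    rintro _ ⟨k, rfl⟩
    have h1 := hs.2 k
    have h2 : a k ≤ C ^ 2 := by
      simp only [ha]; gcongr
    have h3 : 0 ≤ 2 * (1 / 2 : ℝ) ^ (k + 2) := by positivity
    simp only
    linarith
  have hlim := tendsto_atTop_ciSup hmono hbdd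
  have htail : Tendsto (fun k : ℕ => 2 * (1 / 2 : ℝ) ^ (k + 2)) atTop (𝓝 0) := by
    have h0 : Tendsto (fun k : ℕ => (1 / 2 : ℝ) ^ k) atTop (𝓝 0) :=
      tendsto_pow_atTop_nhds_zero_of_lt_one (by norm_num) (by norm_num)
    simpa using (h0.comp (tendsto_add_atTop_nat 2)).const_mul 2
  have ha' : Tendsto a atTop (𝓝 ((⨆ k, (a k - 2 * (1 / 2 : ℝ) ^ (k + 2))) + 0)) := by
    refine (hlim.add htail).congr fun k => by ring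
  have hca := ha'.cauchySeq
  rw [Metric.cauchySeq_iff'] at hca ⊢
  intro ε hε
  have hε2 : 0 < ε ^ 2 / 2 := by positivity
  obtain ⟨N1, hN1⟩ := (Metric.cauchySeq_iff.1 ha'.cauchySeq) (ε ^ 2 / 2) hε2
  obtain ⟨N2, hN2⟩ := (htail.eventually (gt_mem_nhds hε2)).exists_forall_of_atTop
  refine ⟨max N1 N2, fun k hk => ?_⟩
  have h1 := G.diff_sq hs.1 hk
  have h2 := hN1 k (le_trans (le_max_left _ _) hk) (max N1 N2) (le_max_left _ _)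
  have h3 := hN2 (max N1 N2) (le_max_right _ _)
  rw [Real.dist_eq] at h2
  have h4 := (abs_lt.1 h2).2
  have h5 : 0 ≤ (1 / 2 : ℝ) ^ (k + 2) := by positivity
  rw [dist_eq_norm]
  have h6 : ‖P T g n k s - P T g n (max N1 N2) s‖ ^ 2 < ε ^ 2 := by
    simp only [ha] at h4
    linarith
  exact lt_of_pow_lt_pow_left₀ 2 hε.le h6

lemma Good.norm_X {C : ℝ} {s : ℕ → ℂ} (hs : s ∈ KB T g n R C) : ‖X T g n s‖ ≤ C :=
  le_of_tendsto (G.tendsto_X hs).norm (Eventually.of_forall hs.2)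

lemma Good.L2 {C : ℝ} {s : ℕ → ℂ} (hs : s ∈ KB T g n R C) {k : ℕ} {b : H}
    (hb : b ∈ B T g n R k) :
    ‖⟪b, X T g n s⟫_ℂ - ⟪b, P T g n k s⟫_ℂ‖ ≤ (1 / 2 : ℝ) ^ (k + 2) := by
  have h1 : Tendsto (fun k' => ‖⟪b, P T g n k' s⟫_ℂ - ⟪b, P T g n k s⟫_ℂ‖) atTop
      (𝓝 ‖⟪b, X T g n s⟫_ℂ - ⟪b, P T g n k s⟫_ℂ‖) :=
    ((tendsto_const_nhds.inner (G.tendsto_X hs)).sub_const _).norm
  refine le_of_tendsto h1 ?_
  filter_upwards [eventually_ge_atTop k] with k' hk'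
  have h2 := G.L1 hs.1 hb hk'
  have h3 : 0 ≤ (1 / 2 : ℝ) ^ (k' + 2) := by positivity
  linarith

/-- Each coordinate is controlled by the norm of the limit vector. -/
lemma Good.coord {C : ℝ} {s : ℕ → ℂ} (hs : s ∈ KB T g n R C) (hT : ∀ (m : ℕ) (x : H), ‖(T ^ m) x‖ = ‖x‖)
    (k : ℕ) : 3 / 4 * ‖s k‖ ≤ ‖X T g n s‖ + 1 / 4 := by
  have hb : (T ^ n k) g ∈ B T g n R (k + 1) := Or.inl (Or.inr ⟨k, Nat.lt_succ_self k, rfl⟩)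
  have h1 := G.L2 hs hb
  have h2 := G.E3 k s hs.1
  have h3 := G.L1 hs.1 (Or.inr rfl : g ∈ B T g n R 0) (Nat.zero_le k)
  rw [P_zero, inner_self_eq_norm_sq_to_K, G.hg] at h3
  have h4 : 1 - 1 / 4 ≤ ‖⟪g, P T g n k s⟫_ℂ‖ := by
    have h5 : ‖(1:ℂ)‖ ≤ ‖⟪g, P T g n k s⟫_ℂ‖ + ‖⟪g, P T g n k s⟫_ℂ - 1‖ := by
      calc ‖(1:ℂ)‖ = ‖⟪g, P T g n k s⟫_ℂ - (⟪g, P T g n k s⟫_ℂ - 1)‖ := by congr 1; ring
        _ ≤ _ := norm_sub_le _ _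
    have h6 : ‖⟪g, P T g n k s⟫_ℂ - 1‖ ≤ 1 / 4 := by
      have h7 : 0 ≤ (1 / 2 : ℝ) ^ (k + 2) := by positivity
      have h8 : ‖⟪g, P T g n k s⟫_ℂ - 1‖ ≤ (1 / 2 : ℝ) ^ (0 + 2) - (1 / 2 : ℝ) ^ (k + 2) := by
        simpa using h3
      norm_num at h8 ⊢
      linarith
    rw [norm_one] at h5
    linarith
  have h5 : ‖⟪(T ^ n k) g, X T g n s⟫_ℂ‖ ≤ ‖X T g n s‖ := by
    calc _ ≤ ‖(T ^ n k) g‖ * ‖X T g n s‖ := norm_inner_le_norm _ _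
      _ = _ := by rw [hT, G.hg, one_mul]
  have h6 : ‖s k * ⟪g, P T g n k s⟫_ℂ‖ ≤ ‖X T g n s‖ + (1 / 2 : ℝ) ^ (k + 1 + 2)
      + (1 / 2 : ℝ) ^ (k + 3) := by
    have h7 : s k * ⟪g, P T g n k s⟫_ℂ = ⟪(T ^ n k) g, X T g n s⟫_ℂ
        - (⟪(T ^ n k) g, X T g n s⟫_ℂ - ⟪(T ^ n k) g, P T g n (k + 1) s⟫_ℂ)
        - (⟪(T ^ n k) g, P T g n (k + 1) s⟫_ℂ - s k * ⟪g, P T g n k s⟫_ℂ) := by ring
    rw [h7]
    calc _ ≤ ‖⟪(T ^ n k) g, X T g n s⟫_ℂ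
        - (⟪(T ^ n k) g, X T g n s⟫_ℂ - ⟪(T ^ n k) g, P T g n (k + 1) s⟫_ℂ)‖
        + ‖(⟪(T ^ n k) g, P T g n (k + 1) s⟫_ℂ - s k * ⟪g, P T g n k s⟫_ℂ)‖ := norm_sub_le _ _
      _ ≤ ‖⟪(T ^ n k) g, X T g n s⟫_ℂ‖
        + ‖(⟪(T ^ n k) g, X T g n s⟫_ℂ - ⟪(T ^ n k) g, P T g n (k + 1) s⟫_ℂ)‖
        + ‖(⟪(T ^ n k) g, P T g n (k + 1) s⟫_ℂ - s k * ⟪g, P T g n k s⟫_ℂ)‖ := by
          gcongr; exact norm_sub_le _ _
      _ ≤ _ := by gcongr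
  rw [norm_mul] at h6
  have h7 : (1 / 2 : ℝ) ^ (k + 1 + 2) + (1 / 2 : ℝ) ^ (k + 3) ≤ 1 / 4 := by
    have e1 : (1 / 2 : ℝ) ^ (k + 1 + 2) = (1 / 2) ^ k * (1 / 8) := by
      rw [add_assoc, pow_add]; norm_num
    have e3 : (1 / 2 : ℝ) ^ k ≤ 1 := pow_le_one₀ (by norm_num) (by norm_num)
    rw [e1]; linarith
  have h8 : 3 / 4 * ‖s k‖ ≤ ‖s k‖ * ‖⟪g, P T g n k s⟫_ℂ‖ := by
    have := norm_nonneg (s k)
    nlinarith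
  linarith

lemma Good.norm_P {C : ℝ} {s : ℕ → ℂ} (hs : s ∈ KB T g n R C) (k : ℕ) :
    ‖P T g n k s‖ ≤ ‖X T g n s‖ + 1 := by
  have h1 := G.L2 hs (mem_B_P hs.1 k)
  rw [inner_self_eq_norm_sq_to_K] at h1
  have h2 : ‖P T g n k s‖ ^ 2 ≤ ‖P T g n k s‖ * ‖X T g n s‖ + 1 / 4 := by
    have h3 : ‖((‖P T g n k s‖ : ℂ)) ^ 2‖ ≤ ‖⟪P T g n k s, X T g n s⟫_ℂ‖
        + ‖⟪P T g n k s, X T g n s⟫_ℂ - (‖P T g n k s‖ : ℂ) ^ 2‖ := by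
      calc ‖((‖P T g n k s‖ : ℂ)) ^ 2‖ = ‖⟪P T g n k s, X T g n s⟫_ℂ
          - (⟪P T g n k s, X T g n s⟫_ℂ - (‖P T g n k s‖ : ℂ) ^ 2)‖ := by congr 1; ring
        _ ≤ _ := norm_sub_le _ _
    have h4 : ‖((‖P T g n k s‖ : ℂ)) ^ 2‖ = ‖P T g n k s‖ ^ 2 := by
      rw [norm_pow, Complex.norm_real, norm_norm]
    have h5 := norm_inner_le_norm (𝕜 := ℂ) (P T g n k s) (X T g n s)
    have h6 : (1 / 2 : ℝ) ^ (k + 2) ≤ 1 / 4 := by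
      rw [pow_add]
      have e3 : (1 / 2 : ℝ) ^ k ≤ 1 := pow_le_one₀ (by norm_num) (by norm_num)
      norm_num at e3 ⊢
      linarith
    have h7 : ‖⟪P T g n k s, X T g n s⟫_ℂ - (‖P T g n k s‖ : ℂ) ^ 2‖ ≤ (1 / 2 : ℝ) ^ (k + 2) := h1
    rw [h4] at h3
    linarith
  have h3 := norm_nonneg (P T g n k s)
  have h4 := norm_nonneg (X T g n s)
  nlinarith

end V1128.SNH
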