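import Mathlib
import Pool.Agent.V1128.SNH.Lim
import Pool.Agent.V1128.SNH.HB

/-!
# Minimisation over the parameters
-/

namespace V1128.SNH

open Filter Topology Complex
open scoped ComplexConjugate InnerProductSpace

variable {H : Type*} [NormedAddCommGroup H] [InnerProductSpace ℂ H] [CompleteSpace H]
variable {Y : Type*} [NormedAddCommGroup Y] [NormedSpace ℂ Y]
variable {T : H →L[ℂ] H} {g : H} {n : ℕ → ℕ} {R : ℝ}

noncomputable local instance instMinQ : NormedAlgebra ℚ (H →L[ℂ] H) :=
  NormedAlgebra.restrictScalars ℚ ℂ (H →L[ℂ] H)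

section cont
variable (G : Good T g n R)
include G

lemma Good.contOn_P {C : ℝ} {L : ℕ} {s' : ℕ → ℂ} (hs' : s' ∈ D R) :
    ContinuousOn (fun s => ⟪P T g n L s', X T g n s⟫_ℂ) (KB T g n R C) := by
  have hu : TendstoUniformlyOn (fun (k : ℕ) (s : ℕ → ℂ) => ⟪P T g n L s', P T g n k s⟫_ℂ)
      (fun s => ⟪P T g n L s', X T g n s⟫_ℂ) atTop (KB T g n R C) := by
    rw [Metric.tendstoUniformlyOn_iff]
    intro ε hε
    have h0 : Tendsto (fun k : ℕ => (1 / 2 : ℝ) ^ (k + 2)) atTop (𝓝 0) := by
      have : Tendsto (fun k : ℕ => (1 / 2 : ℝ) ^ k) atTop (𝓝 0) :=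
        tendsto_pow_atTop_nhds_zero_of_lt_one (by norm_num) (by norm_num)
      exact this.comp (tendsto_add_atTop_nat 2)
    filter_upwards [h0.eventually (gt_mem_nhds hε), eventually_ge_atTop L] with k hk hkL s hs
    rw [dist_eq_norm]
    have hb : P T g n L s' ∈ B T g n R k := B_mono T g n G.hR hkL (mem_B_P hs' L)
    exact (G.L2 hs hb).trans_lt hk
  refine hu.continuousOn (Frequently.of_forall fun k => ?_)
  exact (continuous_const.inner (continuous_P T g n k)).continuousOn

lemma Good.contOn_inner {C : ℝ} (y : H) :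
    ContinuousOn (fun s => ⟪y, X T g n s⟫_ℂ) (KB T g n R C) := by
  set U : Set H := ⋃ k, P T g n k '' D R with hU
  set V : Submodule ℂ H := (Submodule.span ℂ U).topologicalClosure with hV
  have hXV : ∀ s ∈ KB T g n R C, X T g n s ∈ V := by
    intro s hs
    have hcl : IsClosed (V : Set H) := Submodule.isClosed_topologicalClosure _
    refine hcl.mem_of_tendsto (G.tendsto_X hs) (Eventually.of_forall fun k => ?_)
    refine Submodule.le_topologicalClosure _ (Submodule.subset_span ?_)
    exact Set.mem_iUnion.2 ⟨k, s, hs.1, rfl⟩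
  have : CompleteSpace V := (Submodule.isClosed_topologicalClosure _).completeSpace_coe
  -- the span
  have hspan : ∀ y ∈ Submodule.span ℂ U,
      ContinuousOn (fun s => ⟪y, X T g n s⟫_ℂ) (KB T g n R C) := by
    intro y hy
    induction hy using Submodule.span_induction with
    | mem x hx =>
      obtain ⟨k, s', hs', rfl⟩ := Set.mem_iUnion.1 hx
      exact G.contOn_P hs'
    | zero => simp only [inner_zero_left]; exact continuousOn_const
    | add a b _ _ ha hb => simp only [inner_add_left]; exact ha.add hb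
    | smul c a _ ha =>
      simp only [inner_smul_left]; exact continuousOn_const.mul ha
  have hclos : ∀ y ∈ V, ContinuousOn (fun s => ⟪y, X T g n s⟫_ℂ) (KB T g n R C) := by
    intro y hy
    refine continuousOn_of_uniform_approx_of_continuousOn fun u hu => ?_
    obtain ⟨ε, hε, hu⟩ := Metric.mem_uniformity_dist.1 hu
    have hy' : y ∈ closure (Submodule.span ℂ U : Set H) := hy
    obtain ⟨y', hy'1, hy'2⟩ := Metric.mem_closure_iff.1 hy' (ε / (|C| + 1)) (by positivity)
    refine ⟨fun s => ⟪y', X T g n s⟫_ℂ, hspan y' hy'1, fun s hs => hu ?_⟩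
    rw [dist_eq_norm, ← inner_sub_left]
    rw [dist_eq_norm] at hy'2
    have h1 := G.norm_X hs
    calc ‖⟪y - y', X T g n s⟫_ℂ‖ ≤ ‖y - y'‖ * ‖X T g n s‖ := norm_inner_le_norm _ _
      _ ≤ ‖y - y'‖ * (|C| + 1) := by
          gcongr
          exact h1.trans ((le_abs_self C).trans (by linarith))
      _ < ε / (|C| + 1) * (|C| + 1) := by gcongr
      _ = ε := by field_simp
  obtain ⟨a, ha, b, hb, hab⟩ := V.exists_add_mem_mem_orthogonal y
  refine (hclos a ha).congr fun s hs => ?_
  have h0 : ⟪b, X T g n s⟫_ℂ = 0 := by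
    rw [← inner_conj_symm, hb _ (hXV s hs), map_zero]
  simp only
  rw [hab, inner_add_left, h0, add_zero]

lemma Good.contOn_dual {C : ℝ} (f : StrongDual ℂ H) :
    ContinuousOn (fun s => f (X T g n s)) (KB T g n R C) := by
  refine (G.contOn_inner ((InnerProductSpace.toDual ℂ H).symm f)).congr fun s _ => ?_
  simp only [InnerProductSpace.toDual_symm_apply]

end cont

/-- The linear functional on the parameters. -/
noncomputable def theta (u : ℕ → ℂ) (s : ℕ → ℂ) : ℂ := ∑' k, s k * u k

lemma contOn_theta {u : ℕ → ℂ} (hu : Summable fun k => ‖u k‖) :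
    ContinuousOn (theta u) (D R) := by
  unfold theta
  refine continuousOn_tsum (u := fun k => R * ‖u k‖) (fun k => ?_) (hu.mul_left R) ?_
  · exact ((continuous_apply k).mul continuous_const).continuousOn
  · intro k s hs
    rw [norm_mul]
    gcongr
    exact hs k

lemma summable_theta {u : ℕ → ℂ} (hu : Summable fun k => ‖u k‖) {s : ℕ → ℂ} (hs : s ∈ D R) :
    Summable fun k => s k * u k := by
  refine Summable.of_norm_bounded (g := fun k => R * ‖u k‖) (hu.mul_left R) fun k => ?_
  rw [norm_mul]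
  gcongr
  exact hs k

lemma norm_exp_apply_le (A : H →L[ℂ] H) (x : H) :
    ‖NormedSpace.exp A x‖ ≤ Real.exp ‖A‖ * ‖x‖ := by
  have h := NormedSpace.exp_series_hasSum_exp' (𝕂 := ℂ) A
  have h2 := (ContinuousLinearMap.apply ℂ H x).hasSum h
  have h3 : HasSum (fun m : ℕ => ‖A‖ ^ m / m.factorial * ‖x‖) (Real.exp ‖A‖ * ‖x‖) := by
    have : HasSum (fun m : ℕ => ‖A‖ ^ m / m.factorial) (Real.exp ‖A‖) := by
      rw [Real.exp_eq_exp_ℝ]; exact NormedSpace.expSeries_div_hasSum_exp _
    exact this.mul_right _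
  refine h2.norm_le_of_bounded h3 fun m => ?_
  change ‖(((m.factorial:ℂ)⁻¹) • A ^ m : H →L[ℂ] H) x‖ ≤ _
  rw [smul_apply, norm_smul, norm_inv, Complex.norm_natCast, div_eq_inv_mul, mul_assoc]
  gcongr
  refine (ContinuousLinearMap.le_opNorm _ _).trans ?_
  rcases Nat.eq_zero_or_pos m with h0 | h0
  · subst h0
    simp only [pow_zero, one_mul]
    calc ‖(1 : H →L[ℂ] H)‖ * ‖x‖ ≤ 1 * ‖x‖ := by
          gcongr
          exact ContinuousLinearMap.norm_id_le
      _ = ‖x‖ := one_mul _
  · gcongr
    exact norm_pow_le' A h0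

end V1128.SNH
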