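import Mathlib
import Pool.Agent.V1128.SNH.Min

/-!
# The variational argument
-/

namespace V1128.SNH

open Filter Topology Complex
open scoped ComplexConjugate InnerProductSpace

variable {H : Type*} [NormedAddCommGroup H] [InnerProductSpace ℂ H] [CompleteSpace H]
variable {Y : Type*} [NormedAddCommGroup Y] [NormedSpace ℂ Y]
variable {T : H →L[ℂ] H} {g : H} {n : ℕ → ℕ} {R : ℝ} {u : ℕ → ℂ}

noncomputable local instance instMainQ : NormedAlgebra ℚ (H →L[ℂ] H) :=
  NormedAlgebra.restrictScalars ℚ ℂ (H →L[ℂ] H)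

/-- The functional to be minimised. -/
noncomputable def Nf (J : H →L[ℂ] Y) (T : H →L[ℂ] H) (g : H) (n : ℕ → ℕ) (u : ℕ → ℂ)
    (s : ℕ → ℂ) : ℝ := ‖J (X T g n s)‖ * Real.exp (-(theta u s).re)

lemma Good.lsc (G : Good T g n R) (hu : Summable fun k => ‖u k‖) (J : H →L[ℂ] Y) {C : ℝ} :
    LowerSemicontinuousOn (Nf J T g n u) (KB T g n R C) := by
  intro s0 hs0 y hy
  obtain ⟨f, hf1, hf2⟩ := exists_dual_vector'' ℂ (J (X T g n s0))
  have hc1 : ContinuousOn (fun s => (f (J (X T g n s))).re * Real.exp (-(theta u s).re))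
      (KB T g n R C) := by
    have h1 := G.contOn_dual (C := C) (f.comp J)
    have h2 : ContinuousOn (theta u) (KB T g n R C) := (contOn_theta hu).mono fun s hs => hs.1
    exact (Complex.continuous_re.comp_continuousOn h1).mul
      (Real.continuous_exp.comp_continuousOn (Complex.continuous_re.comp_continuousOn h2).neg)
  have h0 : (f (J (X T g n s0))).re * Real.exp (-(theta u s0).re) = Nf J T g n u s0 := by
    rw [hf2]; rfl
  have h3 := (hc1 s0 hs0).eventually (lt_mem_nhds (h0 ▸ hy))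
  filter_upwards [h3] with s hs
  refine hs.trans_le ?_
  unfold Nf
  gcongr
  calc (f (J (X T g n s))).re ≤ ‖f (J (X T g n s))‖ := Complex.re_le_norm _
    _ ≤ ‖f‖ * ‖J (X T g n s)‖ := f.le_opNorm _
    _ ≤ 1 * ‖J (X T g n s)‖ := by gcongr
    _ = _ := one_mul _

/-- The exponents as a linear map of finitely supported parameters. -/
noncomputable def Wl (T : H →L[ℂ] H) (n : ℕ → ℕ) : (ℕ →₀ ℂ) →ₗ[ℂ] (H →L[ℂ] H) :=
  Finsupp.linearCombination ℂ (fun k => T ^ n k)

/-- The targets as a linear map. -/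
noncomputable def Fl (u : ℕ → ℂ) : (ℕ →₀ ℂ) →ₗ[ℂ] ℂ := Finsupp.linearCombination ℂ u

omit [CompleteSpace H] in
lemma W_fin (v : ℕ →₀ ℂ) (τ : ℂ) {k : ℕ} (hk : v.support ⊆ Finset.range k) :
    W T n k (fun j => τ * v j) = τ • Wl T n v := by
  unfold W Wl
  rw [Finsupp.linearCombination_apply, Finsupp.sum_of_support_subset _ hk _ (by simp),
    Finset.smul_sum]
  exact Finset.sum_congr rfl fun j _ => by rw [smul_smul]

lemma exists_supp (v : ℕ →₀ ℂ) : ∃ m, v.support ⊆ Finset.range m :=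
  ⟨v.support.sup id + 1, fun j hj => by
    have : j ≤ v.support.sup id := Finset.le_sup (f := id) hj
    simpa [Nat.lt_succ_iff] using this⟩

lemma theta_shift (hu : Summable fun k => ‖u k‖) {s : ℕ → ℂ} (hs : s ∈ D R) (v : ℕ →₀ ℂ) (τ : ℂ) :
    theta u (s + fun j => τ * v j) = theta u s + τ * Fl u v := by
  have h1 : Fl u v = ∑' k, v k * u k := by
    unfold Fl
    rw [Finsupp.linearCombination_apply, Finsupp.sum, tsum_eq_sum (s := v.support)]
    · rfl
    · intro b hb
      rw [Finsupp.notMem_support_iff.1 hb, zero_mul]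
  have h2 : Summable fun k => v k * u k :=
    summable_of_ne_finset_zero (s := v.support) fun b hb => by
      rw [Finsupp.notMem_support_iff.1 hb, zero_mul]
  unfold theta
  rw [h1, ← tsum_mul_left, ← (summable_theta hu hs).tsum_add (h2.mul_left τ)]
  congr 1
  ext k
  simp only [Pi.add_apply]
  ring

theorem Good.main_step (G : Good T g n R) (hT : ∀ (m : ℕ) (x : H), ‖(T ^ m) x‖ = ‖x‖)
    (hu : Summable fun k => ‖u k‖) (J : H →L[ℂ] Y)
    {C R0 C0 : ℝ} {s0 : ℕ → ℂ} (hs0 : s0 ∈ KB T g n R C)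
    (hmin : ∀ s ∈ KB T g n R C, Nf J T g n u s0 ≤ Nf J T g n u s)
    (hR0 : ∀ k, ‖s0 k‖ ≤ R0) (hRR : R0 < R) (hC0 : ∀ k, ‖P T g n k s0‖ ≤ C0) (hCC : C0 < C) :
    ∃ f : StrongDual ℂ Y, ‖f‖ ≤ 1 ∧ f (J (X T g n s0)) = ‖J (X T g n s0)‖ ∧
      ∀ k, f (J ((T ^ n k) (X T g n s0))) = ‖J (X T g n s0)‖ * u k := by
  obtain ⟨f, hf1, hf2, hf3⟩ := functional_of_ineq J (Wl T n) (Fl u) (X T g n s0) (by
    intro v
    obtain ⟨m, hm⟩ := exists_supp v
    set V : ℝ := ∑ j ∈ v.support, ‖v j‖ with hV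
    have hV0 : 0 ≤ V := by positivity
    have hvj : ∀ j, ‖v j‖ ≤ V := by
      intro j
      by_cases hj : j ∈ v.support
      · exact Finset.single_le_sum (f := fun j => ‖v j‖) (fun _ _ => norm_nonneg _) hj
      · rw [Finsupp.notMem_support_iff.1 hj, norm_zero]; exact hV0
    have hopn : ∀ q : ℕ, ‖(T ^ q : H →L[ℂ] H)‖ ≤ 1 := fun q =>
      ContinuousLinearMap.opNorm_le_bound _ zero_le_one fun x => by rw [hT, one_mul]
    -- the shifted parameters are admissible
    have hev1 : ∀ᶠ τ : ℝ in 𝓝[>] 0, R0 + τ * V ≤ R := by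
      have : Tendsto (fun τ : ℝ => R0 + τ * V) (𝓝 0) (𝓝 (R0 + 0 * V)) :=
        (Continuous.tendsto (by fun_prop) 0)
      rw [zero_mul, add_zero] at this
      filter_upwards [(this.mono_left nhdsWithin_le_nhds).eventually (gt_mem_nhds hRR)] with τ hτ
      exact hτ.le
    have hev2 : ∀ᶠ τ : ℝ in 𝓝[>] 0, Real.exp (τ * V) * C0 ≤ C := by
      have : Tendsto (fun τ : ℝ => Real.exp (τ * V) * C0) (𝓝 0) (𝓝 (Real.exp (0 * V) * C0)) :=
        (Continuous.tendsto (by fun_prop) 0)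
      rw [zero_mul, Real.exp_zero, one_mul] at this
      filter_upwards [(this.mono_left nhdsWithin_le_nhds).eventually (gt_mem_nhds hCC)] with τ hτ
      exact hτ.le
    filter_upwards [hev1, hev2, self_mem_nhdsWithin] with τ h1 h2 h3
    have hτ : (0:ℝ) < τ := h3
    set w : ℕ → ℂ := fun j => (τ:ℂ) * v j with hw
    have hmem : s0 + w ∈ KB T g n R C := by
      refine ⟨fun j => ?_, fun k => ?_⟩
      · calc ‖(s0 + w) j‖ ≤ ‖s0 j‖ + ‖w j‖ := norm_add_le _ _
          _ ≤ R0 + τ * V := by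
              rw [hw]
              simp only [norm_mul, Complex.norm_real, Real.norm_eq_abs, abs_of_pos hτ]
              gcongr
              · exact hR0 j
              · exact hvj j
          _ ≤ R := h1
      · rw [P_add]
        refine (norm_exp_apply_le _ _).trans (le_trans ?_ h2)
        gcongr
        · unfold W
          calc ‖∑ j ∈ Finset.range k, w j • T ^ n j‖ ≤ ∑ j ∈ Finset.range k, ‖w j • T ^ n j‖ :=
                norm_sum_le _ _
            _ ≤ ∑ j ∈ Finset.range k, τ * ‖v j‖ := by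
                refine Finset.sum_le_sum fun j _ => ?_
                rw [norm_smul, hw]
                simp only [norm_mul, Complex.norm_real, Real.norm_eq_abs, abs_of_pos hτ]
                calc τ * ‖v j‖ * ‖T ^ n j‖ ≤ τ * ‖v j‖ * 1 := by
                      gcongr; exact hopn _
                  _ = _ := mul_one _
            _ = τ * ∑ j ∈ Finset.range k, ‖v j‖ := by rw [Finset.mul_sum]
            _ ≤ τ * V := by
                gcongr
                rw [hV]
                calc ∑ j ∈ Finset.range k, ‖v j‖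
                    ≤ ∑ j ∈ Finset.range k ∪ v.support, ‖v j‖ :=
                      Finset.sum_le_sum_of_subset_of_nonneg Finset.subset_union_left
                        fun _ _ _ => norm_nonneg _
                  _ = ∑ j ∈ v.support, ‖v j‖ := by
                      refine (Finset.sum_subset Finset.subset_union_right fun j _ hj => ?_).symm
                      rw [Finsupp.notMem_support_iff.1 hj, norm_zero]
        · exact hC0 k
    -- the limit vector of the shifted parameters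
    have hX : X T g n (s0 + w) = NormedSpace.exp ((τ:ℂ) • Wl T n v) (X T g n s0) := by
      have h4 := G.tendsto_X hmem
      have h5 : Tendsto (fun k => NormedSpace.exp ((τ:ℂ) • Wl T n v) (P T g n k s0)) atTop
          (𝓝 (NormedSpace.exp ((τ:ℂ) • Wl T n v) (X T g n s0))) :=
        ((NormedSpace.exp ((τ:ℂ) • Wl T n v)).continuous.tendsto _).comp (G.tendsto_X hs0)
      refine tendsto_nhds_unique h4 (h5.congr' ?_)
      filter_upwards [eventually_ge_atTop m] with k hk
      rw [P_add, W_fin v (τ:ℂ) (hm.trans (Finset.range_subset_range.2 hk))]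
    have h6 := hmin _ hmem
    unfold Nf at h6
    rw [hX, theta_shift hu hs0.1 v (τ:ℂ), Complex.add_re, Complex.re_ofReal_mul, neg_add,
      Real.exp_add] at h6
    have h7 : 0 < Real.exp (-(theta u s0).re) := Real.exp_pos _
    have h8 : ‖J (X T g n s0)‖ ≤ ‖J (NormedSpace.exp ((τ:ℂ) • Wl T n v) (X T g n s0))‖
        * Real.exp (-(τ * (Fl u v).re)) := by
      refine le_of_mul_le_mul_right ?_ h7
      linarith
    rw [Real.exp_neg] at h8
    have h9 := Real.exp_pos (τ * (Fl u v).re)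
    have h10 : ‖J (X T g n s0)‖ * Real.exp (τ * (Fl u v).re)
        ≤ ‖J (NormedSpace.exp ((τ:ℂ) • Wl T n v) (X T g n s0))‖ := by
      rwa [← div_eq_mul_inv, le_div_iff₀ h9] at h8
    refine le_trans ?_ h10
    gcongr
    have := Real.add_one_le_exp (τ * (Fl u v).re)
    linarith)
  refine ⟨f, hf1, hf2, fun k => ?_⟩
  have := hf3 (Finsupp.single k 1)
  simpa [Wl, Fl] using this

/-- The main theorem: prescribed values of the numerical orbit along a sparse sequence. -/
theorem main (hU : T ∈ unitary (H →L[ℂ] H))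
    (hne : ∀ (c : ℂ) (x : H), T x = c • x → x = 0) [Nontrivial H] (J : H ≃L[ℂ] Y)
    (r : ℝ) (hr : 1 < r) (z : ℕ → ℂ) :
    ∃ (n : ℕ → ℕ) (x : H) (f : StrongDual ℂ Y), x ≠ 0 ∧ ‖f‖ ≤ 1 ∧ f (J x) = ‖J x‖ ∧
      ∀ k, f (J ((T ^ n k) x)) = ‖J x‖ * (z k / r ^ n k) := by
  have hT : ∀ (m : ℕ) (x : H), ‖(T ^ m) x‖ = ‖x‖ := norm_pow_apply hU
  obtain ⟨g, hg⟩ := exists_norm_eq H (zero_le_one' ℝ)
  set B1 : ℝ := Real.exp 1 * ‖(J : H →L[ℂ] Y)‖ * ‖(J.symm : Y →L[ℂ] H)‖ with hB1
  have hB10 : 0 ≤ B1 := by positivity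
  set R : ℝ := 2 * B1 + 2 with hR
  have hR0 : 0 < R := by positivity
  set C : ℝ := B1 + 2 with hC
  have hr0 : (0:ℝ) < r := by linarith
  -- thresholds for the exponents
  have hN : ∀ k : ℕ, ∃ N : ℕ, ∀ m ≥ N, ‖z k / (r:ℂ) ^ m‖ ≤ (1 / 2 : ℝ) ^ (k + 1) / R := by
    intro k
    have h1 : Tendsto (fun m : ℕ => ‖z k‖ * (r⁻¹) ^ m) atTop (𝓝 (‖z k‖ * 0)) :=
      (tendsto_pow_atTop_nhds_zero_of_lt_one (by positivity) (inv_lt_one_of_one_lt₀ hr)).const_mul _
    rw [mul_zero] at h1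
    have h2 : 0 < (1 / 2 : ℝ) ^ (k + 1) / R := by positivity
    obtain ⟨N, hN⟩ := (h1.eventually (gt_mem_nhds h2)).exists_forall_of_atTop
    refine ⟨N, fun m hm => ?_⟩
    have h3 := hN m hm
    rw [norm_div, norm_pow, Complex.norm_real, Real.norm_eq_abs, abs_of_pos hr0, div_eq_mul_inv,
      ← inv_pow]
    exact h3.le
  choose N hN using hN
  obtain ⟨n, hn1, hn2, hn3⟩ := exists_seq (g := g) hU hne R (fun k => (1 / 2 : ℝ) ^ (k + 3))
    (fun k => by positivity) N
  have G : Good T g n R := ⟨hR0.le, hg, hn2, hn3⟩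
  set u : ℕ → ℂ := fun k => z k / (r:ℂ) ^ n k with hu
  have huk : ∀ k, ‖u k‖ ≤ (1 / 2 : ℝ) ^ (k + 1) / R := fun k => hN k _ (hn1 k)
  have hgeo : HasSum (fun k : ℕ => (1 / 2 : ℝ) ^ (k + 1) / R) (1 / R) := by
    have h1 : HasSum (fun k : ℕ => (1 / 2 : ℝ) ^ k) 2 := by
      have := hasSum_geometric_of_lt_one (r := (1 / 2 : ℝ)) (by norm_num) (by norm_num)
      norm_num at this ⊢
      exact this
    have h2 := h1.mul_left ((1 / 2) / R)
    have e1 : (fun k : ℕ => (1 / 2 : ℝ) ^ (k + 1) / R) = fun k : ℕ => (1 / 2) / R * (1 / 2) ^ k := by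
      funext k; rw [pow_succ]; ring
    have e2 : 1 / R = (1 / 2) / R * 2 := by ring
    rw [e1, e2]; exact h2
  have hus : Summable fun k => ‖u k‖ :=
    Summable.of_nonneg_of_le (fun _ => norm_nonneg _) huk hgeo.summable
  have hth : ∀ s ∈ D R, |(theta u s).re| ≤ 1 := by
    intro s hs
    refine (Complex.abs_re_le_norm _).trans ?_
    unfold theta
    have h1 : HasSum (fun k : ℕ => R * ((1 / 2 : ℝ) ^ (k + 1) / R)) (R * (1 / R)) :=
      hgeo.mul_left R
    have h2 := tsum_of_norm_bounded (f := fun k => s k * u k) h1 (fun k => by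
      rw [norm_mul]
      gcongr
      · exact hs k
      · exact huk k)
    refine h2.trans (le_of_eq ?_)
    field_simp
  -- the zero parameter
  have hP0 : ∀ k, P T g n k 0 = g := by
    intro k
    have : W T n k 0 = 0 := by
      unfold W; exact Finset.sum_eq_zero fun j _ => by rw [Pi.zero_apply, zero_smul]
    unfold P
    rw [this, NormedSpace.exp_zero]; rfl
  have h0 : (0 : ℕ → ℂ) ∈ KB T g n R C := by
    refine ⟨fun j => by simpa using hR0.le, fun k => ?_⟩
    rw [hP0, hg, hC]; linarith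
  have hX0 : X T g n 0 = g := by
    refine tendsto_nhds_unique (G.tendsto_X h0) ?_
    simp_rw [hP0]; exact tendsto_const_nhds
  obtain ⟨s0, hs0, hmin⟩ := LowerSemicontinuousOn.exists_isMinOn ⟨0, h0⟩ (isCompact_KB T g n R C)
    (G.lsc hus (J : H →L[ℂ] Y) (C := C))
  have hmin' : ∀ s ∈ KB T g n R C, Nf (J : H →L[ℂ] Y) T g n u s0 ≤ Nf (J : H →L[ℂ] Y) T g n u s :=
    fun s hs => hmin hs
  -- bound for the minimiser
  have hXb : ‖X T g n s0‖ ≤ B1 := by
    have h1 := hmin' 0 h0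
    unfold Nf at h1
    rw [hX0] at h1
    have hth0 : theta u 0 = 0 := by
      unfold theta; simp
    rw [hth0, Complex.zero_re, neg_zero, Real.exp_zero, mul_one] at h1
    have h2 : Real.exp (-1) ≤ Real.exp (-(theta u s0).re) := by
      have := (abs_le.1 (hth s0 hs0.1)).2
      exact Real.exp_le_exp.2 (by linarith)
    have h3 : ‖J (X T g n s0)‖ * Real.exp (-1) ≤ ‖(J : H →L[ℂ] Y)‖ := by
      calc ‖J (X T g n s0)‖ * Real.exp (-1) ≤ ‖J (X T g n s0)‖ * Real.exp (-(theta u s0).re) := by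
            gcongr
        _ ≤ ‖J g‖ := h1
        _ ≤ ‖(J : H →L[ℂ] Y)‖ * ‖g‖ := (J : H →L[ℂ] Y).le_opNorm g
        _ = _ := by rw [hg, mul_one]
    have h4 : ‖J (X T g n s0)‖ ≤ Real.exp 1 * ‖(J : H →L[ℂ] Y)‖ := by
      rw [Real.exp_neg, ← div_eq_mul_inv, div_le_iff₀ (Real.exp_pos 1)] at h3
      linarith
    calc ‖X T g n s0‖ = ‖(J.symm : Y →L[ℂ] H) (J (X T g n s0))‖ := by simp
      _ ≤ ‖(J.symm : Y →L[ℂ] H)‖ * ‖J (X T g n s0)‖ := (J.symm : Y →L[ℂ] H).le_opNorm _
      _ ≤ ‖(J.symm : Y →L[ℂ] H)‖ * (Real.exp 1 * ‖(J : H →L[ℂ] Y)‖) := by gcongr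
      _ = B1 := by rw [hB1]; ring
  obtain ⟨f, hf1, hf2, hf3⟩ := G.main_step hT hus (J : H →L[ℂ] Y) hs0 hmin'
    (R0 := (4 * B1 + 1) / 3) (C0 := B1 + 1)
    (fun k => by have := G.coord hs0 hT k; linarith) (by rw [hR]; linarith)
    (fun k => (G.norm_P hs0 k).trans (by linarith)) (by rw [hC]; linarith)
  refine ⟨n, X T g n s0, f, ?_, hf1, hf2, hf3⟩
  -- the vector is nonzero
  intro hzero
  have h1 := G.L2 hs0 (Or.inr rfl : g ∈ B T g n R 0)
  rw [hzero, inner_zero_right, P_zero, inner_self_eq_norm_sq_to_K, hg] at h1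
  norm_num at h1

end V1128.SNH
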